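import Pool.Agent.Lib.MP_1acd66_nt.Gr.Reduction

/-! Polynomial representations of matrices on coefficient vectors. -/

namespace Pool.Agent.Lib.MP_1acd66_nt.Gr

open Finset

/-- A homogeneous polynomial right action of `r × r` matrices on coefficient vectors indexed by
`ι`, defined over all commutative rings, whose coordinates are weight vectors. -/
structure GAct (r : ℕ) (ι : Type) [Fintype ι] where
  /-- the action -/
  act : ∀ {K : Type} [CommRing K], Matrix (Fin r) (Fin r) K → (ι → K) → (ι → K)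
  /-- the weights -/
  χ : ι → Fin r → ℕ
  /-- the degree -/
  e : ℕ
  /-- the sum of the weights -/
  E : ℕ
  act_smul : ∀ {K : Type} [CommRing K] (g : Matrix (Fin r) (Fin r) K) (s : K) (A : ι → K),
    act g (s • A) = s • act g A
  act_map : ∀ {K L : Type} [CommRing K] [CommRing L] (f : K →+* L)
    (g : Matrix (Fin r) (Fin r) K) (A : ι → K),
    act (g.map f) (fun i => f (A i)) = fun i => f (act g A i)
  act_mul : ∀ {K : Type} [CommRing K] (g h : Matrix (Fin r) (Fin r) K) (A : ι → K),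
    act (g * h) A = act h (act g A)
  act_one : ∀ {K : Type} [CommRing K] (A : ι → K), act (1 : Matrix (Fin r) (Fin r) K) A = A
  act_diag : ∀ {K : Type} [CommRing K] (l : Fin r → K) (A : ι → K),
    act (Matrix.diagonal l) A = fun i => (∏ k, l k ^ χ i k) * A i
  χ_sum : ∀ i, ∑ k, χ i k = e
  χ_col : ∀ k, ∑ i, χ i k = E

variable {r : ℕ} {ι : Type} [Fintype ι] (D : GAct r ι)

theorem GAct.card_mul : Fintype.card ι * D.e = r * D.E := by
  have h1 : ∑ i : ι, ∑ k, D.χ i k = Fintype.card ι * D.e := by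
    rw [Finset.sum_congr rfl fun i _ => D.χ_sum i, Finset.sum_const, Finset.card_univ, smul_eq_mul]
  have h2 : ∑ k : Fin r, ∑ i, D.χ i k = r * D.E := by
    rw [Finset.sum_congr rfl fun k _ => D.χ_col k, Finset.sum_const, Finset.card_univ,
      Fintype.card_fin, smul_eq_mul]
  rw [← h1, ← h2, Finset.sum_comm]

theorem GAct.act_scalar {K : Type} [CommRing K] (s : K) (A : ι → K) :
    D.act (s • (1 : Matrix (Fin r) (Fin r) K)) A = s ^ D.e • A := by
  have h1 : s • (1 : Matrix (Fin r) (Fin r) K) = Matrix.diagonal (fun _ => s) := by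
    rw [Matrix.smul_one_eq_diagonal]
  rw [h1, D.act_diag]
  funext i
  simp only [Pi.smul_apply, smul_eq_mul]
  congr 1
  rw [Finset.prod_pow_eq_pow_sum, D.χ_sum]

theorem GAct.act_zero {K : Type} [CommRing K] (g : Matrix (Fin r) (Fin r) K) :
    D.act g (0 : ι → K) = 0 := by
  have := D.act_smul g (0:K) 0
  rwa [zero_smul, zero_smul] at this

theorem GAct.act_neg {K : Type} [CommRing K] (g : Matrix (Fin r) (Fin r) K) (A : ι → K) :
    D.act g (-A) = -D.act g A := by
  have := D.act_smul g (-1:K) A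
  rwa [neg_one_smul, neg_one_smul] at this

theorem GAct.act_inv_act {K : Type} [CommRing K] {g : Matrix (Fin r) (Fin r) K}
    (hg : IsUnit g.det) (A : ι → K) : D.act g⁻¹ (D.act g A) = A := by
  rw [← D.act_mul, Matrix.mul_nonsing_inv g hg, D.act_one]

theorem GAct.act_act_inv {K : Type} [CommRing K] {g : Matrix (Fin r) (Fin r) K}
    (hg : IsUnit g.det) (A : ι → K) : D.act g (D.act g⁻¹ A) = A := by
  rw [← D.act_mul, Matrix.nonsing_inv_mul g hg, D.act_one]

theorem GAct.act_ne_zero {K : Type} [Field K] {g : Matrix (Fin r) (Fin r) K} (hg : g.det ≠ 0)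
    {A : ι → K} (hA : A ≠ 0) : D.act g A ≠ 0 := by
  intro h
  apply hA
  rw [← D.act_inv_act (isUnit_iff_ne_zero.2 hg) A, h, D.act_zero]

/-- The local norms on the anticanonical bundle, as functions on pairs `(Z, A)`. -/
structure IsLocalNorm (K : Type) [NormedField K] (N : ℕ)
    (M : (Fin r → Fin N → K) → (ι → K) → ℝ) : Prop where
  cont : ContinuousOn (fun x : (Fin r → Fin N → K) × (ι → K) => M x.1 x.2)
    {x | IsFrame x.1 ∧ x.2 ≠ 0}
  pos : ∀ Z A, IsFrame Z → A ≠ 0 → 0 < M Z A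
  scale : ∀ Z A, IsFrame Z → A ≠ 0 → ∀ s : K, s ≠ 0 →
    M Z (s • A) = ‖s‖ ^ (Fintype.card ι) * M Z A
  frame : ∀ Z A, IsFrame Z → A ≠ 0 → ∀ g : Matrix (Fin r) (Fin r) K, g.det ≠ 0 →
    M (rowOp g Z) A = ‖g.det‖ ^ (N - D.E) * M Z (D.act g A)

end Pool.Agent.Lib.MP_1acd66_nt.Gr
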