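import Pool.Agent.Lib.MP_1acd66_nt.Gr.Good

/-! Uniform asymptotics on the balanced part. -/

set_option linter.unusedSectionVars false

namespace Pool.Agent.Lib.MP_1acd66_nt.Gr

open MeasureTheory Metric Set Filter Topology

variable {r N : ℕ} [NeZero r] {ι : Type} [Fintype ι] [Nonempty ι] {D : GAct r ι}
  {Good : (ι → ℚ) → Prop}

theorem cnt_cong (M : Fr r N → (ι → ℝ) → ℝ) (q : ℕ) (A0 : (ι → ℤ)) (k : Fr r N) (Y : ℝ) :
    cnt (fun A => Cong1 q A A0) M k Y = ((latt1 q A0 ∩ sub (M k) Y).ncard : ℝ) := by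
  rw [cnt, ← Set.ncard_image_of_injective _ castA_injective]
  congr 2
  ext x
  simp only [mem_image, cset, sub, mem_ofPred_eq, mem_inter_iff]
  constructor
  · rintro ⟨A, ⟨hA, hc, hMA⟩, rfl⟩
    exact ⟨mem_latt_castA.2 hc, castA_ne_zero hA, hMA⟩
  · rintro ⟨hx, hx0, hMx⟩
    obtain ⟨A, rfl, hA⟩ := latt_eq_castA hx
    refine ⟨A, ⟨?_, hA, hMx⟩, rfl⟩
    rintro rfl
    exact hx0 castA_zero

/-- uniform asymptotics in a residue class -/
theorem cong_asymp {M : Fr r N → (ι → ℝ) → ℝ} (hM : IsLocalNorm D ℝ N M) (t : ℝ)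
    {q : ℕ} (hq : 0 < q) (A0 : (ι → ℤ)) : ∀ ε > 0, ∃ Y0 > 0, ∀ k ∈ Kt r N t, ∀ Y, Y0 ≤ Y →
      |cnt (fun A => Cong1 q A A0) M k Y - ((q:ℝ) ^ (Fintype.card ι))⁻¹ * bodyVol M k * Y| ≤ ε * Y := by
  intro ε hε
  obtain ⟨U, hU⟩ := bodyVol_le hM t
  obtain ⟨c, _, hc, _, hb⟩ := hM.compact_bound (isCompact_Kt r N t)
    (fun k hk => isFrame_of_mem_Kt hk)
  set R := Fintype.card ι with hR
  have hR0 : 0 < R := Fintype.card_pos
  set ε' := min 1 (ε / (4 * (|U| + 1))) with hε'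
  have hε'p : 0 < ε' := by positivity
  obtain ⟨δ, hδ, hδ2, hmod⟩ := hM.modulus (isCompact_Kt r N t) (fun k hk => isFrame_of_mem_Kt hk) hε'p
  set K0 := (volume : Measure ((ι → ℝ))).real (closedBall 0 ((q:ℝ) / δ + q)) with hK0
  have hK0n : 0 ≤ K0 := measureReal_nonneg
  refine ⟨6 * K0 / ε + 1, by positivity, ?_⟩
  intro k hk Y hY
  have hYpos : 0 < Y := lt_of_lt_of_le (by positivity) hY
  have hfr := isFrame_of_mem_Kt hk
  obtain ⟨c1, c2⟩ := (tiling_latt1 hq A0).count (M k) (finrank_co) hR0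
    (hM.homA hfr) hc (fun x hx => (hb k hk x hx).1) hε'p hδ (by
      intro x y hx hxy
      exact hmod k hk k hk (by rw [sub_self, norm_zero]; exact hδ.le) x y hx hxy) hYpos
  rw [cnt_cong]
  set n : ℝ := ((latt1 q A0 ∩ sub (M k) Y).ncard : ℝ) with hn
  set u := bodyVol M k with hu
  have hu' : (volume : Measure ((ι → ℝ))).real (sub (M k) 1) = u := rfl
  rw [hu', ← hK0] at c1 c2
  have hu0 : 0 ≤ u := measureReal_nonneg
  have huU : u ≤ |U| := (hU k hk).trans (le_abs_self _)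
  have hq1 : (1:ℝ) ≤ (q:ℝ) ^ R := one_le_pow₀ (by exact_mod_cast hq)
  set v := (q:ℝ) ^ R with hv
  have hvpos : 0 < v := by linarith
  have hε'1 : ε' ≤ 1 := min_le_left _ _
  have hε'2 : ε' * u ≤ ε / 4 := by
    have h1 : ε' ≤ ε / (4 * (|U| + 1)) := min_le_right _ _
    have h2 : 0 ≤ |U| := abs_nonneg _
    calc ε' * u ≤ ε / (4 * (|U| + 1)) * (|U| + 1) := by
          apply mul_le_mul h1 (by linarith) hu0 (by positivity)
      _ = ε / 4 := by field_simp
  have hK : 3 * K0 ≤ ε / 2 * Y := by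
    have : 6 * K0 / ε ≤ Y := by linarith
    rw [div_le_iff₀ hε] at this
    linarith
  have hYu : 0 ≤ Y * u := by positivity
  have key : |v * n - Y * u| ≤ ε * Y := by
    have e1 : ε' * (Y * u) ≤ ε / 4 * Y := by nlinarith
    have e2 : ε' * (Y * u) = ε' * (Y * u) := rfl
    rw [abs_le]
    constructor
    · -- Y u - v n ≤ ε Y
      have h3 : Y * u - v * n ≤ ε' * (v * n) + (1 + ε') * K0 := by nlinarith
      have h4 : ε' * (v * n) ≤ ε' * ((1 + ε') * (Y * u) + K0) :=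
        mul_le_mul_of_nonneg_left c1 hε'p.le
      have h5 : ε' * ((1 + ε') * (Y * u) + K0) ≤ 2 * (ε' * (Y * u)) + K0 := by
        have h6 : ε' * ((1 + ε') * (Y * u)) ≤ 2 * (ε' * (Y * u)) := by
          have : ε' * ((1 + ε') * (Y * u)) = (1 + ε') * (ε' * (Y * u)) := by ring
          rw [this]
          apply mul_le_mul_of_nonneg_right (by linarith) (by positivity)
        have h7 : ε' * K0 ≤ 1 * K0 := mul_le_mul_of_nonneg_right hε'1 hK0n
        linarith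
      have h8 : (1 + ε') * K0 ≤ 2 * K0 := mul_le_mul_of_nonneg_right (by linarith) hK0n
      linarith
    · have h3 : v * n - Y * u ≤ ε' * (Y * u) + K0 := by linarith
      have h4 : 0 ≤ ε * Y := by positivity
      linarith
  have e : n - v⁻¹ * u * Y = v⁻¹ * (v * n - Y * u) := by
    field_simp
  rw [e, abs_mul, abs_of_pos (inv_pos.2 hvpos)]
  calc v⁻¹ * |v * n - Y * u| ≤ 1 * (ε * Y) := by
        apply mul_le_mul (inv_le_one_of_one_le₀ hq1) key (abs_nonneg _) zero_le_one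
    _ = ε * Y := one_mul _

/-- the arrays with a common zero are negligible -/
theorem bad_asymp {M : Fr r N → (ι → ℝ) → ℝ} (hM : IsLocalNorm D ℝ N M) (hG : IsGood D Good) (t : ℝ) :
    ∀ ε > 0, ∃ Y0 > 0, ∀ k ∈ Kt r N t, ∀ Y, Y0 ≤ Y →
      |cnt (fun A => ¬ Good (toQ1 A)) M k Y - 0 * bodyVol M k * Y| ≤ ε * Y := by
  intro ε hε
  obtain ⟨c, _, hc, _, hb⟩ := hM.compact_bound (isCompact_Kt r N t)
    (fun k hk => isFrame_of_mem_Kt hk)
  obtain ⟨_, _, _, _, hfin⟩ := cset_bound hM t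
  set R := Fintype.card ι with hR
  have hR0 : 0 < R := Fintype.card_pos
  obtain ⟨r0, hr0, hbad⟩ := hG.rare (ε * c) (by positivity)
  refine ⟨c * r0 ^ R, by positivity, ?_⟩
  intro k hk Y hY
  have hYpos : 0 < Y := lt_of_lt_of_le (by positivity) hY
  obtain ⟨X, hX, hXR⟩ := exists_rad hR0 (Q := Y / c) (by positivity)
  have hXr : r0 ≤ X := by
    have : r0 ^ R ≤ X ^ R := by rw [hXR, le_div_iff₀ hc]; linarith
    exact (pow_le_pow_iff_left₀ (by linarith) hX.le hR0.ne').1 this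
  rw [zero_mul, zero_mul, sub_zero, abs_of_nonneg (cnt_nonneg _ _ _ _)]
  have hf := (hfin (fun A => ¬ Good (toQ1 A)) k hk Y).2.1
  rw [cnt, Set.ncard_eq_toFinset_card _ hf]
  have h1 := hbad X hXr hf.toFinset (by
    intro A hA
    rw [Set.Finite.mem_toFinset] at hA
    obtain ⟨hA0, hnr, hMA⟩ := hA
    refine ⟨hnr, ?_⟩
    intro i
    refine (abs_le_norm_castA A i).trans ?_
    have h2 := (hb k hk _ (castA_ne_zero hA0)).1.trans hMA
    have h3 : ‖castA A‖ ^ R ≤ X ^ R := by rw [hXR, le_div_iff₀ hc]; linarith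
    exact (pow_le_pow_iff_left₀ (norm_nonneg _) hX.le hR0.ne').1 h3)
  refine h1.trans (le_of_eq ?_)
  rw [hXR]
  field_simp

end Pool.Agent.Lib.MP_1acd66_nt.Gr
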