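import Pool.Agent.Lib.MP_1acd66_nt.Gr.Weight
import Pool.Agent.Lib.MP_1acd66_nt.SumAsymp

/-! Lattices of integral arrays, congruences and boxes. -/

set_option linter.unusedSectionVars false

namespace Pool.Agent.Lib.MP_1acd66_nt.Gr

open MeasureTheory Metric Set Filter Topology

/-- cast an integral frame -/
def castZ {r N : ℕ} (Z : FrZ r N) : Fr r N := fun i j => ((Z i j : ℤ) : ℝ)

/-- cast an integral vector of coefficients -/
def castA {ι : Type} (A : ι → ℤ) : ι → ℝ := fun i => ((A i : ℤ) : ℝ)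

section casts

variable {r N : ℕ} {ι : Type} [Fintype ι]

theorem castA_injective : Function.Injective (castA : (ι → ℤ) → ι → ℝ) := by
  intro Z Z' h
  funext i
  have := congrFun h i
  simp only [castA] at this
  exact_mod_cast this

theorem castA_zero : castA (0 : ι → ℤ) = 0 := by
  funext i
  simp [castA]

theorem castA_ne_zero {A : ι → ℤ} (hA : A ≠ 0) : castA A ≠ 0 := by
  intro h
  apply hA
  apply castA_injective
  rw [h, castA_zero]

theorem castZ_injective : Function.Injective (castZ : FrZ r N → Fr r N) := by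
  intro Z Z' h
  funext i j
  have := congrFun (congrFun h i) j
  simp only [castZ] at this
  exact_mod_cast this

theorem castZ_ne_zero {Z : FrZ r N} (hZ : Z ≠ 0) : castZ Z ≠ 0 := by
  intro h
  apply hZ
  apply castZ_injective
  rw [h]
  funext i j
  simp [castZ]

theorem minor_castZ (Z : FrZ r N) (f : Fin r → Fin N) :
    minor (castZ Z) f = ((minor Z f : ℤ) : ℝ) := minor_map (Int.castRingHom ℝ) Z f

theorem isFrame_castZ {Z : FrZ r N} (hZ : IsFrame Z) : IsFrame (castZ Z) := by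
  obtain ⟨f, hf⟩ := hZ
  refine ⟨f, ?_⟩
  rw [minor_castZ]
  exact_mod_cast hf

theorem gram_castZ (Z : FrZ r N) : gram (castZ Z) = ((gram Z : ℤ) : ℝ) :=
  gram_map (Int.castRingHom ℝ) Z

theorem dot_castZ (Z : FrZ r N) (i j : Fin r) :
    dot (castZ Z i) (castZ Z j) = ((dot (Z i) (Z j) : ℤ) : ℝ) := (cast_dot _ _).symm

theorem castZ_rowOp (h : Matrix (Fin r) (Fin r) ℤ) (Z : FrZ r N) :
    castZ (rowOp h Z) = rowOp (castM h) (castZ Z) :=
  (rowOp_map (Int.castRingHom ℝ) h Z).symm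

theorem one_le_norm_castA {A : ι → ℤ} (hA : A ≠ 0) : 1 ≤ ‖castA A‖ := by
  obtain ⟨i, hi⟩ : ∃ i, A i ≠ 0 := by
    by_contra h
    push Not at h
    exact hA (funext h)
  have h1 : |((A i : ℤ) : ℝ)| ≤ ‖castA A‖ := norm_le_pi_norm (castA A) i
  have h2 : (1:ℝ) ≤ |((A i : ℤ) : ℝ)| := by
    have := Int.one_le_abs hi
    exact_mod_cast this
  linarith

theorem abs_le_norm_castA (A : ι → ℤ) (i : ι) : |((A i : ℤ) : ℝ)| ≤ ‖castA A‖ :=
  norm_le_pi_norm (castA A) i

theorem abs_le_norm_castZ (Z : FrZ r N) (i : Fin r) (j : Fin N) :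
    |((Z i j : ℤ) : ℝ)| ≤ ‖castZ Z‖ :=
  (norm_le_pi_norm (castZ Z i) j).trans (norm_le_pi_norm (castZ Z) i)

theorem one_le_norm_castZ {Z : FrZ r N} (hZ : Z ≠ 0) : 1 ≤ ‖castZ Z‖ := by
  obtain ⟨i, hi⟩ : ∃ i, Z i ≠ 0 := by
    by_contra h
    push Not at h
    exact hZ (funext h)
  obtain ⟨j, hj⟩ : ∃ j, Z i j ≠ 0 := by
    by_contra h
    push Not at h
    exact hi (funext h)
  refine le_trans ?_ (abs_le_norm_castZ Z i j)
  have := Int.one_le_abs hj
  exact_mod_cast this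

/-- the number of integral points of a box -/
theorem card_box {α : Type*} [Fintype α] {B : α → ℝ} (hB : ∀ i, 0 ≤ B i) (S : Finset (α → ℤ))
    (hS : ∀ x ∈ S, ∀ j, |((x j : ℤ) : ℝ)| ≤ B j) : (S.card : ℝ) ≤ ∏ i, (3 * max 1 (B i)) := by
  classical
  have h1 : S ⊆ Fintype.piFinset (fun j : α => Finset.Icc (-⌊B j⌋) ⌊B j⌋) := by
    intro x hx
    rw [Fintype.mem_piFinset]
    intro j
    have := hS x hx j
    rw [abs_le] at this
    rw [Finset.mem_Icc]
    constructor
    · have : -(x j) ≤ ⌊B j⌋ := Int.le_floor.2 (by push_cast; linarith)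
      linarith
    · exact Int.le_floor.2 this.2
  have h2 := Finset.card_le_card h1
  rw [Fintype.card_piFinset] at h2
  simp only [Int.card_Icc] at h2
  have h3 : ∀ j, (((⌊B j⌋ + 1 - -⌊B j⌋).toNat : ℕ) : ℝ) ≤ 3 * max 1 (B j) := by
    intro j
    have hf : (0:ℤ) ≤ ⌊B j⌋ := Int.floor_nonneg.2 (hB j)
    have h4 : (((⌊B j⌋ + 1 - -⌊B j⌋).toNat : ℕ) : ℤ) = 2 * ⌊B j⌋ + 1 := by
      rw [Int.toNat_of_nonneg (by omega)]; ring
    have h5 : (((⌊B j⌋ + 1 - -⌊B j⌋).toNat : ℕ) : ℝ) = 2 * (⌊B j⌋:ℝ) + 1 := by exact_mod_cast h4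
    rw [h5]
    have := Int.floor_le (B j)
    have h6 := le_max_left 1 (B j)
    have h7 := le_max_right 1 (B j)
    linarith
  calc (S.card : ℝ) ≤ ((∏ j, (⌊B j⌋ + 1 - -⌊B j⌋).toNat : ℕ) : ℝ) := by exact_mod_cast h2
    _ = ∏ j, (((⌊B j⌋ + 1 - -⌊B j⌋).toNat : ℕ) : ℝ) := by push_cast; rfl
    _ ≤ _ := Finset.prod_le_prod (fun j _ => Nat.cast_nonneg _) fun j _ => h3 j

/-- the number of integral arrays with bounded rows -/
theorem card_rows {B : Fin r → ℝ} (hB : ∀ i, 1 ≤ B i) (S : Finset (FrZ r N))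
    (hS : ∀ x ∈ S, ∀ i j, |((x i j : ℤ) : ℝ)| ≤ B i) : (S.card : ℝ) ≤ ∏ i, (3 * B i) ^ N := by
  classical
  have hinj : Set.InjOn (fun (x : FrZ r N) (p : Fin r × Fin N) => x p.1 p.2) S := by
    intro x _ y _ hxy
    funext i j
    exact congrFun hxy (i, j)
  rw [← Finset.card_image_of_injOn hinj]
  refine (card_box (B := fun p : Fin r × Fin N => B p.1) (fun p => by linarith [hB p.1]) _ ?_).trans
    (le_of_eq ?_)
  · intro y hy p
    obtain ⟨x, hx, rfl⟩ := Finset.mem_image.1 hy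
    exact hS x hx _ _
  · rw [Fintype.prod_prod_type]
    refine Finset.prod_congr rfl fun i _ => ?_
    simp only [max_eq_right (hB i)]
    rw [Finset.prod_const, Finset.card_univ, Fintype.card_fin]

end casts

section lattice

variable {a b : ℕ}

/-- the real points congruent to `Z0` modulo `q` -/
def latt (q : ℕ) (Z0 : Fin a → Fin b → ℤ) : Set (Fin a → Fin b → ℝ) :=
  {x | ∃ z : Fin a → Fin b → ℤ, ∀ i j, x i j = (Z0 i j : ℝ) + q * (z i j : ℝ)}

/-- the tile -/
def tile (a b q : ℕ) : Set (Fin a → Fin b → ℝ) :=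
  Set.pi Set.univ (fun _ => Set.pi Set.univ (fun _ => Set.Ico (0:ℝ) q))

theorem mem_tile {q : ℕ} {x : Fin a → Fin b → ℝ} :
    x ∈ tile a b q ↔ ∀ i j, 0 ≤ x i j ∧ x i j < q := by
  simp only [tile, Set.mem_pi, Set.mem_univ, true_implies, Set.mem_Ico]

theorem tiling_latt {q : ℕ} (hq : 0 < q) (Z0 : Fin a → Fin b → ℤ) :
    Tiling (volume : Measure (Fin a → Fin b → ℝ)) (latt q Z0) (tile a b q)
      ((q:ℝ) ^ (a * b)) q where
  meas := by
    refine MeasurableSet.univ_pi fun _ => MeasurableSet.univ_pi fun _ => measurableSet_Ico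
  vol := by
    rw [tile, volume_pi_pi]
    simp only [volume_pi_pi, Real.volume_Ico, sub_zero, Finset.prod_const, Finset.card_univ,
      Fintype.card_fin]
    rw [← pow_mul, mul_comm b a, ENNReal.ofReal_pow (by positivity)]
  vpos := by positivity
  rpos := by exact_mod_cast hq
  bdd := by
    intro x hx
    rw [mem_tile] at hx
    rw [pi_norm_le_iff_of_nonneg (by positivity)]
    intro i
    rw [pi_norm_le_iff_of_nonneg (by positivity)]
    intro j
    rw [Real.norm_eq_abs, abs_of_nonneg (hx i j).1]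
    exact (hx i j).2.le
  cover := by
    intro y
    have hq' : (0:ℝ) < q := by exact_mod_cast hq
    refine ⟨fun i j => (Z0 i j : ℝ) + q * ((⌊(y i j - Z0 i j) / q⌋ : ℤ) : ℝ),
      ⟨fun i j => ⌊(y i j - Z0 i j) / q⌋, fun i j => rfl⟩, ?_⟩
    rw [mem_tile]
    intro i j
    have h1 := Int.floor_le ((y i j - Z0 i j) / q)
    have h2 := Int.lt_floor_add_one ((y i j - Z0 i j) / q)
    rw [le_div_iff₀ hq'] at h1
    rw [div_lt_iff₀ hq'] at h2
    simp only [Pi.sub_apply]
    constructor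
    · linarith
    · linarith
  disj := by
    rintro x ⟨z, hz⟩ x' ⟨z', hz'⟩ y hy hy'
    rw [mem_tile] at hy hy'
    funext i j
    have hq' : (0:ℝ) < q := by exact_mod_cast hq
    have h1 := hy i j
    have h2 := hy' i j
    simp only [Pi.sub_apply] at h1 h2
    have h3 : (q:ℝ) * (((z i j - z' i j : ℤ)) : ℝ) < q * 1 := by
      push_cast
      have e1 := hz i j
      have e2 := hz' i j
      have : (q:ℝ) * ((z i j : ℝ) - z' i j) = x i j - x' i j := by rw [e1, e2]; ring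
      rw [this]; linarith [h1.1, h1.2, h2.1, h2.2]
    have h4 : (q:ℝ) * (-1) < (q:ℝ) * (((z i j - z' i j : ℤ)) : ℝ) := by
      push_cast
      have e1 := hz i j
      have e2 := hz' i j
      have : (q:ℝ) * ((z i j : ℝ) - z' i j) = x i j - x' i j := by rw [e1, e2]; ring
      rw [this]; linarith [h1.1, h1.2, h2.1, h2.2]
    have h5 := lt_of_mul_lt_mul_left h3 hq'.le
    have h6 := lt_of_mul_lt_mul_left h4 hq'.le
    have h7 : z i j - z' i j < 1 := by exact_mod_cast h5
    have h8 : -1 < z i j - z' i j := by exact_mod_cast h6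
    have h9 : z i j = z' i j := by omega
    rw [hz i j, hz' i j, h9]

end lattice

section lattice1

variable {ι : Type} [Fintype ι]

/-- the real points congruent to `A0` modulo `q` -/
def latt1 (q : ℕ) (A0 : ι → ℤ) : Set (ι → ℝ) :=
  {x | ∃ z : ι → ℤ, ∀ i, x i = (A0 i : ℝ) + q * (z i : ℝ)}

/-- the tile -/
def tile1 (ι : Type) (q : ℕ) : Set (ι → ℝ) := Set.pi Set.univ (fun _ => Set.Ico (0:ℝ) q)

theorem mem_tile1 {q : ℕ} {x : ι → ℝ} : x ∈ tile1 ι q ↔ ∀ i, 0 ≤ x i ∧ x i < q := by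
  simp only [tile1, Set.mem_pi, Set.mem_univ, true_implies, Set.mem_Ico]

theorem tiling_latt1 {q : ℕ} (hq : 0 < q) (A0 : ι → ℤ) :
    Tiling (volume : Measure (ι → ℝ)) (latt1 q A0) (tile1 ι q)
      ((q:ℝ) ^ (Fintype.card ι)) q where
  meas := MeasurableSet.univ_pi fun _ => measurableSet_Ico
  vol := by
    rw [tile1, volume_pi_pi]
    simp only [Real.volume_Ico, sub_zero, Finset.prod_const, Finset.card_univ]
    rw [ENNReal.ofReal_pow (by positivity)]
  vpos := by positivity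
  rpos := by exact_mod_cast hq
  bdd := by
    intro x hx
    rw [mem_tile1] at hx
    rw [pi_norm_le_iff_of_nonneg (by positivity)]
    intro i
    rw [Real.norm_eq_abs, abs_of_nonneg (hx i).1]
    exact (hx i).2.le
  cover := by
    intro y
    have hq' : (0:ℝ) < q := by exact_mod_cast hq
    refine ⟨fun i => (A0 i : ℝ) + q * ((⌊(y i - A0 i) / q⌋ : ℤ) : ℝ),
      ⟨fun i => ⌊(y i - A0 i) / q⌋, fun i => rfl⟩, ?_⟩
    rw [mem_tile1]
    intro i
    have h1 := Int.floor_le ((y i - A0 i) / q)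
    have h2 := Int.lt_floor_add_one ((y i - A0 i) / q)
    rw [le_div_iff₀ hq'] at h1
    rw [div_lt_iff₀ hq'] at h2
    simp only [Pi.sub_apply]
    constructor
    · linarith
    · linarith
  disj := by
    rintro x ⟨z, hz⟩ x' ⟨z', hz'⟩ y hy hy'
    rw [mem_tile1] at hy hy'
    funext i
    have hq' : (0:ℝ) < q := by exact_mod_cast hq
    have h1 := hy i
    have h2 := hy' i
    simp only [Pi.sub_apply] at h1 h2
    have h3 : (q:ℝ) * (((z i - z' i : ℤ)) : ℝ) < q * 1 := by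
      push_cast
      have e1 := hz i
      have e2 := hz' i
      have : (q:ℝ) * ((z i : ℝ) - z' i) = x i - x' i := by rw [e1, e2]; ring
      rw [this]; linarith [h1.1, h1.2, h2.1, h2.2]
    have h4 : (q:ℝ) * (-1) < (q:ℝ) * (((z i - z' i : ℤ)) : ℝ) := by
      push_cast
      have e1 := hz i
      have e2 := hz' i
      have : (q:ℝ) * ((z i : ℝ) - z' i) = x i - x' i := by rw [e1, e2]; ring
      rw [this]; linarith [h1.1, h1.2, h2.1, h2.2]
    have h5 := lt_of_mul_lt_mul_left h3 hq'.le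
    have h6 := lt_of_mul_lt_mul_left h4 hq'.le
    have h7 : z i - z' i < 1 := by exact_mod_cast h5
    have h8 : -1 < z i - z' i := by exact_mod_cast h6
    have h9 : z i = z' i := by omega
    rw [hz i, hz' i, h9]

end lattice1

section cong

variable {r N : ℕ} {ι : Type} [Fintype ι]

/-- congruence of integral arrays -/
def Cong {a b : ℕ} (q : ℕ) (x y : Fin a → Fin b → ℤ) : Prop := ∀ i j, (q:ℤ) ∣ (x i j - y i j)

/-- congruence of integral vectors -/
def Cong1 (q : ℕ) (x y : ι → ℤ) : Prop := ∀ i, (q:ℤ) ∣ (x i - y i)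

theorem mem_latt_castZ {q : ℕ} {Z Z0 : FrZ r N} : castZ Z ∈ latt q Z0 ↔ Cong q Z Z0 := by
  constructor
  · rintro ⟨z, hz⟩ i j
    refine ⟨z i j, ?_⟩
    have := hz i j
    simp only [castZ] at this
    have h2 : ((Z i j - Z0 i j : ℤ) : ℝ) = (((q:ℤ) * z i j : ℤ) : ℝ) := by
      push_cast; linarith
    exact_mod_cast h2
  · intro h
    choose z hz using h
    refine ⟨z, ?_⟩
    intro i j
    simp only [castZ]
    have h2 : ((Z i j - Z0 i j : ℤ) : ℝ) = (((q:ℤ) * z i j : ℤ) : ℝ) := by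
      rw [hz i j]
    push_cast at h2
    linarith

theorem latt_eq_castZ {q : ℕ} {Z0 : FrZ r N} {x : Fr r N} (hx : x ∈ latt q Z0) :
    ∃ Z : FrZ r N, castZ Z = x ∧ Cong q Z Z0 := by
  obtain ⟨z, hz⟩ := hx
  refine ⟨fun i j => Z0 i j + q * z i j, ?_, ?_⟩
  · funext i j
    simp only [castZ, hz i j]
    push_cast
    rfl
  · intro i j
    exact ⟨z i j, by ring⟩

theorem mem_latt_castA {q : ℕ} {A A0 : ι → ℤ} : castA A ∈ latt1 q A0 ↔ Cong1 q A A0 := by
  constructor
  · rintro ⟨z, hz⟩ i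
    refine ⟨z i, ?_⟩
    have := hz i
    simp only [castA] at this
    have h2 : ((A i - A0 i : ℤ) : ℝ) = (((q:ℤ) * z i : ℤ) : ℝ) := by
      push_cast; linarith
    exact_mod_cast h2
  · intro h
    choose z hz using h
    refine ⟨z, ?_⟩
    intro i
    simp only [castA]
    have h2 : ((A i - A0 i : ℤ) : ℝ) = (((q:ℤ) * z i : ℤ) : ℝ) := by
      rw [hz i]
    push_cast at h2
    linarith

theorem latt_eq_castA {q : ℕ} {A0 : ι → ℤ} {x : ι → ℝ} (hx : x ∈ latt1 q A0) :
    ∃ A : ι → ℤ, castA A = x ∧ Cong1 q A A0 := by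
  obtain ⟨z, hz⟩ := hx
  refine ⟨fun i => A0 i + q * z i, ?_, ?_⟩
  · funext i
    simp only [castA, hz i]
    push_cast
    rfl
  · intro i
    exact ⟨z i, by ring⟩

end cong

end Pool.Agent.Lib.MP_1acd66_nt.Gr
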