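import Pool.Agent.Lib.MP_1acd66_nt.Gr.Basic

/-! Sums over integral frames. -/

set_option linter.unusedSectionVars false

namespace Pool.Agent.Lib.MP_1acd66_nt.Gr

open MeasureTheory Metric Set Filter Topology

variable {r N : ℕ} [NeZero r] {ι : Type} [Fintype ι] [Nonempty ι] {D : GAct r ι}

/-- balanced frames of norm one -/
def Kt (r N : ℕ) (t : ℝ) : Set (Fr r N) := {k | ‖k‖ = 1 ∧ 1 ≤ t * √(gram k)}

theorem isCompact_Kt (r N : ℕ) [NeZero r] (t : ℝ) : IsCompact (Kt r N t) := by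
  have h1 : IsCompact (sphere (0 : Fr r N) 1) := isCompact_sphere 0 1
  have h2 : IsClosed {k : Fr r N | 1 ≤ t * √(gram k)} :=
    isClosed_le continuous_const (continuous_const.mul (Real.continuous_sqrt.comp continuous_gram))
  have : Kt r N t = sphere 0 1 ∩ {k : Fr r N | 1 ≤ t * √(gram k)} := by
    ext k
    simp [Kt]
  rw [this]
  exact h1.inter_right h2

theorem isFrame_of_mem_Kt {t : ℝ} {k : Fr r N} (hk : k ∈ Kt r N t) : IsFrame k := by
  rw [← gram_pos_iff]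
  have h := hk.2
  by_contra hcon
  have : √(gram k) = 0 := Real.sqrt_eq_zero'.2 (not_lt.1 hcon)
  rw [this, mul_zero] at h
  linarith

theorem mem_Kt_of_bal {t : ℝ} {Z : Fr r N} (h : 0 < bal t Z) : ‖Z‖⁻¹ • Z ∈ Kt r N t := by
  obtain ⟨h1, h2⟩ := bal_pos h
  have hn : 0 < ‖Z‖ := norm_pos_iff.2 h2
  refine ⟨?_, ?_⟩
  · rw [norm_smul, norm_inv, norm_norm, inv_mul_cancel₀ hn.ne']
  · rw [sqrt_gram_smul (inv_pos.2 hn)]
    rw [inv_pow]
    have : t * ((‖Z‖ ^ r)⁻¹ * √(gram Z)) = (t * √(gram Z)) / ‖Z‖ ^ r := by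
      rw [div_eq_mul_inv]; ring
    rw [this, one_le_div (by positivity)]
    exact h1.le

/-- integral arrays with property `p` in a sublevel set -/
def cset (p : (ι → ℤ) → Prop) (M : Fr r N → (ι → ℝ) → ℝ) (Z : Fr r N) (Y : ℝ) : Set (ι → ℤ) :=
  {A | A ≠ 0 ∧ p A ∧ M Z (castA A) ≤ Y}

/-- their number -/
noncomputable def cnt (p : (ι → ℤ) → Prop) (M : Fr r N → (ι → ℝ) → ℝ) (Z : Fr r N) (Y : ℝ) : ℝ :=
  (cset p M Z Y).ncard

theorem cnt_nonneg (p : (ι → ℤ) → Prop) (M : Fr r N → (ι → ℝ) → ℝ) (Z : Fr r N) (Y : ℝ) :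
    0 ≤ cnt p M Z Y := Nat.cast_nonneg _

theorem cset_scale {M : Fr r N → (ι → ℝ) → ℝ} (hM : IsLocalNorm D ℝ N M)
    (hw : D.E ≤ N) (p : (ι → ℤ) → Prop) {Z : Fr r N} (hZ : Z ≠ 0)
    (hF : IsFrame (‖Z‖⁻¹ • Z)) (Y : ℝ) :
    cset p M Z Y = cset p M (‖Z‖⁻¹ • Z) (Y * (‖Z‖ ^ (r * N))⁻¹) := by
  have hn : 0 < ‖Z‖ := norm_pos_iff.2 hZ
  ext A
  simp only [cset, mem_ofPred_eq]
  refine and_congr_right fun hA => and_congr_right fun _ => ?_
  have h1 := hM.scaleZ hw hF (castA_ne_zero hA) hn.ne'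
  rw [smul_smul, mul_inv_cancel₀ hn.ne', one_smul, abs_of_pos hn] at h1
  rw [h1, ← div_eq_mul_inv, le_div_iff₀ (by positivity), mul_comm]

/-- radius corresponding to a bound -/
theorem exists_rad {D : ℕ} (hD : 0 < D) {Q : ℝ} (hQ : 0 < Q) : ∃ X : ℝ, 0 < X ∧ X ^ D = Q := by
  refine ⟨Q ^ (1 / (D:ℝ)), Real.rpow_pos_of_pos hQ _, ?_⟩
  rw [← Real.rpow_natCast, ← Real.rpow_mul hQ.le]
  have : (D:ℝ) ≠ 0 := by positivity
  field_simp
  exact Real.rpow_one Q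

theorem cset_bound {M : Fr r N → (ι → ℝ) → ℝ} (hM : IsLocalNorm D ℝ N M) (t : ℝ) :
    ∃ c C : ℝ, 0 < c ∧ 0 < C ∧ ∀ p : (ι → ℤ) → Prop, ∀ k ∈ Kt r N t, ∀ Y : ℝ,
      (Y < c → cset p M k Y = ∅) ∧ (cset p M k Y).Finite ∧ (0 < Y → cnt p M k Y ≤ C * Y) := by
  obtain ⟨c, _, hc, _, hb⟩ := hM.compact_bound (isCompact_Kt r N t)
    (fun k hk => isFrame_of_mem_Kt hk)
  set D := Fintype.card ι with hD
  have hD0 : 0 < D := Fintype.card_pos
  refine ⟨c, 3 ^ D / c, hc, by positivity, ?_⟩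
  intro p k hk Y
  have hlow : ∀ A ∈ cset p M k Y, c * ‖castA A‖ ^ D ≤ Y := by
    rintro A ⟨hA, _, hMA⟩
    exact (hb k hk _ (castA_ne_zero hA)).1.trans hMA
  have h1 : Y < c → cset p M k Y = ∅ := by
    intro hY
    by_contra hne
    obtain ⟨A, hA⟩ := Set.nonempty_iff_ne_empty.2 hne
    have h2 := hlow A hA
    have h3 := one_le_pow₀ (n := D) (one_le_norm_castA hA.1)
    nlinarith
  have hcard : ∀ S : Finset (ι → ℤ), (∀ A ∈ S, A ∈ cset p M k Y) → 0 < Y →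
      (S.card : ℝ) ≤ 3 ^ D / c * Y := by
    intro S hS hY
    rcases S.eq_empty_or_nonempty with rfl | ⟨A0, hA0⟩
    · simp only [Finset.card_empty, Nat.cast_zero]; positivity
    · obtain ⟨X, hX, hXD⟩ := exists_rad hD0 (Q := Y / c) (by positivity)
      have hle : ∀ A ∈ S, ‖castA A‖ ≤ X := by
        intro A hA
        have := hlow A (hS A hA)
        have h2 : ‖castA A‖ ^ D ≤ X ^ D := by
          rw [hXD, le_div_iff₀ hc]; linarith
        exact (pow_le_pow_iff_left₀ (norm_nonneg _) hX.le hD0.ne').1 h2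
      have hX1 : 1 ≤ X := (one_le_norm_castA (hS A0 hA0).1).trans (hle A0 hA0)
      have h3 := card_box (B := fun _ : ι => X) (fun _ => by linarith) S
        (fun A hA i => (abs_le_norm_castA A i).trans (hle A hA))
      refine h3.trans (le_of_eq ?_)
      rw [Finset.prod_const, Finset.card_univ, max_eq_right hX1, ← hD, mul_pow, hXD]
      ring
  have hfin : (cset p M k Y).Finite := by
    by_cases hY : 0 < Y
    · by_contra hinf
      have hinf : (cset p M k Y).Infinite := hinf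
      obtain ⟨n, hn⟩ := exists_nat_gt (3 ^ D / c * Y)
      obtain ⟨s, hs, hs2⟩ := hinf.exists_subset_card_eq n
      have := hcard s (fun A hA => hs hA) hY
      rw [hs2] at this
      linarith
    · rw [h1 (by linarith)]; exact Set.finite_empty
  refine ⟨h1, hfin, ?_⟩
  intro hY
  rw [cnt, Set.ncard_eq_toFinset_card _ hfin]
  exact hcard _ (fun A hA => hfin.mem_toFinset.1 hA) hY

/-- upper bound for the volume on the balanced part -/
theorem bodyVol_le {M : Fr r N → (ι → ℝ) → ℝ} (hM : IsLocalNorm D ℝ N M) (t : ℝ) :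
    ∃ U : ℝ, ∀ k ∈ Kt r N t, bodyVol M k ≤ U := by
  obtain ⟨c, _, hc, _, hb⟩ := hM.compact_bound (isCompact_Kt r N t)
    (fun k hk => isFrame_of_mem_Kt hk)
  have hD0 : 0 < Fintype.card ι := Fintype.card_pos
  obtain ⟨X, hX, hXD⟩ := exists_rad hD0 (Q := 1 / c) (by positivity)
  refine ⟨(volume : Measure (ι → ℝ)).real (closedBall 0 X), ?_⟩
  intro k hk
  refine measureReal_mono ?_ measure_closedBall_lt_top.ne
  rintro A ⟨hA, hMA⟩
  rw [mem_closedBall_zero_iff]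
  have h1 := (hb k hk A hA).1
  have h2 : ‖A‖ ^ (Fintype.card ι) ≤ X ^ (Fintype.card ι) := by
    rw [hXD, le_div_iff₀ hc]; linarith
  exact (pow_le_pow_iff_left₀ (norm_nonneg _) hX.le hD0.ne').1 h2

/-- The main summation theorem over integral frames in a congruence class. -/
theorem frame_sum {M : Fr r N → (ι → ℝ) → ℝ} (hM : IsLocalNorm D ℝ N M)
    (hw : D.E ≤ N) (hN : 0 < N) {t : ℝ}
    {q : ℕ} (hq : 0 < q) (Z0 : FrZ r N) (p : (ι → ℤ) → Prop) {η : ℝ} (hη : 0 ≤ η)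
    (hasymp : ∀ ε > 0, ∃ Y0 > 0, ∀ k ∈ Kt r N t, ∀ Y, Y0 ≤ Y →
      |cnt p M k Y - η * bodyVol M k * Y| ≤ ε * Y)
    {c : ℝ} (hc : 0 < c)
    (hempty : ∀ k ∈ Kt r N t, ∀ Y, Y < c → cset p M k Y = ∅) {ε : ℝ} (hε : 0 < ε) :
    ∃ Y1, ∀ Y ≥ Y1, ∀ S : Finset (FrZ r N), (∀ Z ∈ S, Cong q Z Z0 ∧ Z ≠ 0) →
      (∀ Z, Cong q Z Z0 → Z ≠ 0 → c * ‖castZ Z‖ ^ (r * N) ≤ Y → Z ∈ S) →
      |(q:ℝ) ^ (r * N) * ∑ Z ∈ S, wt t (castZ Z) * cnt p M (castZ Z) Y -
        η * kap volume (dens t M) / (r * N : ℕ) * (Y * Real.log Y)| ≤ ε * (Y * Real.log Y) := by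
  classical
  obtain ⟨_, C, _, hC, hbound⟩ := cset_bound hM t
  set Φ : Fr r N → ℝ := fun Z => η * dens t M Z with hΦ
  have hdens := homNeg_dens hM hw t
  have hΦn : HomNeg (r * N) Φ :=
    { cont := continuousOn_const.mul hdens.cont
      nonneg := fun x => mul_nonneg hη (hdens.nonneg x)
      hom := by
        intro x hx s hs
        simp only [hΦ]
        rw [hdens.hom x hx s hs]
        ring }
  have hkap : kap volume Φ = η * kap volume (dens t M) := by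
    simp only [kap, ann, hΦ]
    rw [integral_const_mul]
    ring
  set g : Fr r N → ℝ → ℝ := fun Z Y => wt t Z * cnt p M Z Y with hg
  have hcases : ∀ Z : Fr r N, Z ≠ 0 → ∀ Y : ℝ, (wt t Z = 0) ∨
      (‖Z‖⁻¹ • Z ∈ Kt r N t ∧ cset p M Z Y =
        cset p M (‖Z‖⁻¹ • Z) (Y * (‖Z‖ ^ (r * N))⁻¹)) := by
    intro Z hZ Y
    by_cases h : wt t Z = 0
    · exact Or.inl h
    · right
      have h1 := mem_Kt_of_bal (wt_pos h)
      exact ⟨h1, cset_scale hM hw p hZ (isFrame_of_mem_Kt h1) Y⟩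
  have key := (tiling_latt hq Z0).sum_asymp (finrank_piPi r N) (Nat.mul_pos (NeZero.pos r) hN) hΦn (g := g) (C := C)
    (c0 := c) hc hC.le ?_ ?_ ?_ hε
  · obtain ⟨Y1, hY1⟩ := key
    refine ⟨Y1, ?_⟩
    intro Y hY S hS1 hS2
    have h := hY1 Y hY (S.image castZ) ?_ ?_
    · rw [Finset.sum_image (fun x _ y _ hxy => castZ_injective hxy)] at h
      rw [hkap] at h
      exact h
    · intro x hx
      obtain ⟨Z, hZ, rfl⟩ := Finset.mem_image.1 hx
      exact ⟨mem_latt_castZ.2 (hS1 Z hZ).1, castZ_ne_zero (hS1 Z hZ).2⟩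
    · intro x hx hx0 hxY
      obtain ⟨Z, rfl, hZ⟩ := latt_eq_castZ hx
      refine Finset.mem_image_of_mem _ (hS2 Z hZ ?_ hxY)
      rintro rfl
      apply hx0
      funext i j
      simp [castZ]
  · -- asymptotics
    intro ε' hε'
    obtain ⟨Y0, hY0, H⟩ := hasymp ε' hε'
    refine ⟨Y0, hY0, ?_⟩
    intro Z _ hZ0 Y hY
    have hn : 0 < ‖Z‖ := norm_pos_iff.2 hZ0
    have hYpos : 0 < Y := lt_of_lt_of_le (by positivity) hY
    rcases hcases Z hZ0 Y with h | ⟨h1, h2⟩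
    · simp only [hg, hΦ, dens, h, zero_mul, mul_zero, sub_zero, abs_zero]
      positivity
    · have hfr := isFrame_of_mem_Kt h1
      have e1 : g Z Y = wt t Z * cnt p M (‖Z‖⁻¹ • Z) (Y * (‖Z‖ ^ (r * N))⁻¹) := by
        simp only [hg, cnt, h2]
      have e2 : bodyVol M Z = (‖Z‖ ^ (r * N))⁻¹ * bodyVol M (‖Z‖⁻¹ • Z) := by
        have := hM.bodyVol_smul hw hfr hn
        rwa [smul_smul, mul_inv_cancel₀ hn.ne', one_smul] at this
      have e3 : Φ Z * Y = wt t Z * (η * bodyVol M (‖Z‖⁻¹ • Z) * (Y * (‖Z‖ ^ (r * N))⁻¹)) := by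
        simp only [hΦ, dens, e2]; ring
      rw [e1, e3, ← mul_sub, abs_mul, abs_of_nonneg (wt_nonneg _ _)]
      have h3 := H _ h1 (Y * (‖Z‖ ^ (r * N))⁻¹) (by
        rw [← div_eq_mul_inv, le_div_iff₀ (by positivity)]; exact hY)
      calc wt t Z * |cnt p M (‖Z‖⁻¹ • Z) (Y * (‖Z‖ ^ (r * N))⁻¹) -
            η * bodyVol M (‖Z‖⁻¹ • Z) * (Y * (‖Z‖ ^ (r * N))⁻¹)|
          ≤ 1 * (ε' * (Y * (‖Z‖ ^ (r * N))⁻¹)) :=
            mul_le_mul (wt_le_one _ _) h3 (abs_nonneg _) zero_le_one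
        _ = _ := by ring
  · -- upper bound
    intro Z _ hZ0 Y hY
    have hn : 0 < ‖Z‖ := norm_pos_iff.2 hZ0
    refine ⟨mul_nonneg (wt_nonneg _ _) (cnt_nonneg _ _ _ _), ?_⟩
    rcases hcases Z hZ0 Y with h | ⟨h1, h2⟩
    · simp only [hg, h, zero_mul]
      positivity
    · have e1 : g Z Y = wt t Z * cnt p M (‖Z‖⁻¹ • Z) (Y * (‖Z‖ ^ (r * N))⁻¹) := by
        simp only [hg, cnt, h2]
      rw [e1]
      have h3 := (hbound p _ h1 (Y * (‖Z‖ ^ (r * N))⁻¹)).2.2 (by positivity)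
      calc wt t Z * cnt p M (‖Z‖⁻¹ • Z) (Y * (‖Z‖ ^ (r * N))⁻¹)
          ≤ 1 * (C * (Y * (‖Z‖ ^ (r * N))⁻¹)) :=
            mul_le_mul (wt_le_one _ _) h3 (cnt_nonneg _ _ _ _) zero_le_one
        _ = _ := by ring
  · -- vanishing
    intro Z _ hZ0 Y hY
    have hn : 0 < ‖Z‖ := norm_pos_iff.2 hZ0
    rcases hcases Z hZ0 Y with h | ⟨h1, h2⟩
    · simp only [hg, h, zero_mul]
    · have e1 : g Z Y = wt t Z * cnt p M (‖Z‖⁻¹ • Z) (Y * (‖Z‖ ^ (r * N))⁻¹) := by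
        simp only [hg, cnt, h2]
      have h3 := hempty _ h1 (Y * (‖Z‖ ^ (r * N))⁻¹) (by
        rw [← div_eq_mul_inv, div_lt_iff₀ (by positivity)]; exact hY)
      rw [e1, cnt, h3, Set.ncard_empty]
      simp

end Pool.Agent.Lib.MP_1acd66_nt.Gr
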