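import Mathlib

/-! Frames of rank `r`, their maximal minors and Gram determinants. -/

namespace Pool.Agent.Lib.MP_1acd66_nt.Gr

open Finset

section ring

variable {K : Type*} [CommRing K] {r N : ℕ}

/-- The minor of an `r × N` array on the columns `f 0, …, f (r-1)`. -/
def minor (Z : Fin r → Fin N → K) (f : Fin r → Fin N) : K :=
  Matrix.det (Matrix.of fun i j => Z i (f j))

/-- A frame: the rows are linearly independent (some maximal minor does not vanish). -/
def IsFrame (Z : Fin r → Fin N → K) : Prop := ∃ f, minor Z f ≠ 0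

/-- Change of frame: the product `g * Z`. -/
def rowOp {m : ℕ} (g : Matrix (Fin m) (Fin r) K) (Z : Fin r → Fin N → K) : Fin m → Fin N → K :=
  fun i j => ∑ k, g i k * Z k j

/-- dot product -/
def dot (x y : Fin N → K) : K := ∑ j, x j * y j

/-- Gram determinant -/
def gram (Z : Fin r → Fin N → K) : K := Matrix.det (Matrix.of fun i j => dot (Z i) (Z j))

theorem rowOp_eq_mul (g : Matrix (Fin r) (Fin r) K) (Z : Fin r → Fin N → K) :
    rowOp g Z = g * (Matrix.of Z) := by
  funext i j
  simp [rowOp, Matrix.mul_apply]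

theorem rowOp_mul (g h : Matrix (Fin r) (Fin r) K) (Z : Fin r → Fin N → K) :
    rowOp (g * h) Z = rowOp g (rowOp h Z) := by
  rw [rowOp_eq_mul, rowOp_eq_mul, rowOp_eq_mul, Matrix.mul_assoc]
  rfl

theorem rowOp_one (Z : Fin r → Fin N → K) : rowOp 1 Z = Z := by
  rw [rowOp_eq_mul, Matrix.one_mul]
  rfl

theorem rowOp_smul_one (s : K) (Z : Fin r → Fin N → K) :
    rowOp (s • (1 : Matrix (Fin r) (Fin r) K)) Z = s • Z := by
  rw [rowOp_eq_mul, Matrix.smul_mul, Matrix.one_mul]
  rfl

theorem rowOp_smul (g : Matrix (Fin r) (Fin r) K) (s : K) (Z : Fin r → Fin N → K) :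
    rowOp g (s • Z) = s • rowOp g Z := by
  funext i j
  simp only [rowOp, Pi.smul_apply, smul_eq_mul, Finset.mul_sum]
  exact Finset.sum_congr rfl fun k _ => by ring

theorem rowOp_zero (g : Matrix (Fin r) (Fin r) K) : rowOp g (0 : Fin r → Fin N → K) = 0 := by
  funext i j
  simp [rowOp]

theorem rowOp_diagonal (l : Fin r → K) (Z : Fin r → Fin N → K) :
    rowOp (Matrix.diagonal l) Z = fun i j => l i * Z i j := by
  funext i j
  simp [rowOp, Matrix.diagonal_apply]

theorem rowOp_updateRow (g : Matrix (Fin r) (Fin r) K) (Z : Fin r → Fin N → K) (i : Fin r)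
    (c : Fin r → K) : rowOp (g.updateRow i c) Z = Function.update (rowOp g Z) i
      (fun j => ∑ k, c k * Z k j) := by
  funext a j
  by_cases h : a = i
  · subst h
    simp [rowOp]
  · simp [rowOp, h]

theorem minor_rowOp (g : Matrix (Fin r) (Fin r) K) (Z : Fin r → Fin N → K)
    (f : Fin r → Fin N) : minor (rowOp g Z) f = g.det * minor Z f := by
  rw [minor, minor, ← Matrix.det_mul]
  congr 1

theorem dot_comm (x y : Fin N → K) : dot x y = dot y x := by
  simp only [dot]; exact Finset.sum_congr rfl fun j _ => mul_comm _ _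

theorem dot_sum_left {ι : Type*} (s : Finset ι) (c : ι → K) (x : ι → Fin N → K) (y : Fin N → K) :
    dot (fun j => ∑ k ∈ s, c k * x k j) y = ∑ k ∈ s, c k * dot (x k) y := by
  simp only [dot, Finset.sum_mul, Finset.mul_sum]
  rw [Finset.sum_comm]
  exact Finset.sum_congr rfl fun k _ => Finset.sum_congr rfl fun j _ => by ring

theorem dot_sum_right {ι : Type*} (s : Finset ι) (c : ι → K) (x : ι → Fin N → K) (y : Fin N → K) :
    dot y (fun j => ∑ k ∈ s, c k * x k j) = ∑ k ∈ s, c k * dot y (x k) := by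
  rw [dot_comm, dot_sum_left]
  exact Finset.sum_congr rfl fun k _ => by rw [dot_comm]

theorem dot_smul_smul (s t : K) (x y : Fin N → K) :
    dot (fun j => s * x j) (fun j => t * y j) = s * t * dot x y := by
  simp only [dot, Finset.mul_sum]
  exact Finset.sum_congr rfl fun j _ => by ring

theorem gram_rowOp (g : Matrix (Fin r) (Fin r) K) (Z : Fin r → Fin N → K) :
    gram (rowOp g Z) = g.det ^ 2 * gram Z := by
  have e : (Matrix.of fun i j => dot (rowOp g Z i) (rowOp g Z j)) =
      g * (Matrix.of fun i j => dot (Z i) (Z j)) * g.transpose := by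
    ext i j
    simp only [Matrix.of_apply, Matrix.mul_apply, Matrix.transpose_apply]
    have h1 : dot (rowOp g Z i) (rowOp g Z j) =
        ∑ k, g i k * dot (Z k) (rowOp g Z j) := dot_sum_left univ (fun k => g i k) Z _
    rw [h1]
    have h2 : ∀ k, dot (Z k) (rowOp g Z j) = ∑ l, g j l * dot (Z k) (Z l) := fun k =>
      dot_sum_right univ (fun l => g j l) Z _
    simp_rw [h2, Finset.mul_sum, Finset.sum_mul]
    rw [Finset.sum_comm]
    exact Finset.sum_congr rfl fun l _ => Finset.sum_congr rfl fun k _ => by ring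
  rw [gram, e, Matrix.det_mul, Matrix.det_mul, Matrix.det_transpose, gram]
  ring

theorem gram_map {L : Type*} [CommRing L] (f : K →+* L) (Z : Fin r → Fin N → K) :
    gram (fun i j => f (Z i j)) = f (gram Z) := by
  rw [gram, gram, RingHom.map_det]
  congr 1
  ext i j
  simp [dot, map_sum]

theorem minor_map {L : Type*} [CommRing L] (f : K →+* L) (Z : Fin r → Fin N → K)
    (c : Fin r → Fin N) : minor (fun i j => f (Z i j)) c = f (minor Z c) := by
  rw [minor, minor, RingHom.map_det]
  rfl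

theorem rowOp_map {L : Type*} [CommRing L] (f : K →+* L) (g : Matrix (Fin r) (Fin r) K)
    (Z : Fin r → Fin N → K) :
    rowOp (g.map f) (fun i j => f (Z i j)) = fun i j => f (rowOp g Z i j) := by
  funext i j
  simp [rowOp, map_sum]

/-- Cauchy-Binet -/
theorem gram_eq_sum (Z : Fin r → Fin N → K) :
    gram Z = ∑ f : Fin r → Fin N, (∏ i, Z i (f i)) * minor Z f := by
  have h1 : (Matrix.of fun i j => dot (Z i) (Z j)) =
      (fun i => ∑ l, Z i l • (fun j => Z j l) : Matrix (Fin r) (Fin r) K) := by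
    funext i j
    simp [dot]
  have h2 := (Matrix.detRowAlternating (R := K) (n := Fin r)).toMultilinearMap.map_sum
    (fun i (l : Fin N) => Z i l • (fun j => Z j l))
  have h3 : gram Z = (Matrix.detRowAlternating (R := K) (n := Fin r)).toMultilinearMap
      (fun i => ∑ l, Z i l • (fun j => Z j l)) := by
    rw [gram, h1]; rfl
  rw [h3, h2]
  refine Finset.sum_congr rfl fun f _ => ?_
  rw [MultilinearMap.map_smul_univ]
  simp only [smul_eq_mul]
  congr 1
  have : minor Z f = Matrix.det (Matrix.of fun i j => Z i (f j)).transpose := by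
    rw [Matrix.det_transpose]; rfl
  rw [this]
  rfl

theorem minor_perm (Z : Fin r → Fin N → K) (f : Fin r → Fin N) (σ : Equiv.Perm (Fin r)) :
    minor Z (f ∘ σ) = (Equiv.Perm.sign σ : K) * minor Z f := by
  rw [minor, minor, ← Matrix.det_permute' σ]
  rfl

theorem sum_minor_sq (Z : Fin r → Fin N → K) :
    ∑ f, minor Z f ^ 2 = (Nat.factorial r : K) * gram Z := by
  have h1 : ∀ σ : Equiv.Perm (Fin r), gram Z = ∑ f : Fin r → Fin N,
      ((Equiv.Perm.sign σ : K) * ∏ i, Z i (f (σ i))) * minor Z f := by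
    intro σ
    rw [gram_eq_sum, ← Equiv.sum_comp (Equiv.arrowCongr σ.symm (Equiv.refl (Fin N)))]
    refine Finset.sum_congr rfl fun f _ => ?_
    have e : (Equiv.arrowCongr σ.symm (Equiv.refl (Fin N))) f = f ∘ σ := by
      funext i; simp [Equiv.arrowCongr]
    rw [e, minor_perm]
    simp only [Function.comp]
    ring
  have h2 : (Nat.factorial r : K) * gram Z = ∑ σ : Equiv.Perm (Fin r), gram Z := by
    rw [Finset.sum_const, Finset.card_univ, Fintype.card_perm, Fintype.card_fin, nsmul_eq_mul]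
  rw [h2, Finset.sum_congr rfl fun σ _ => h1 σ, Finset.sum_comm]
  refine Finset.sum_congr rfl fun f _ => ?_
  rw [← Finset.sum_mul, sq]
  congr 1
  rw [minor, ← Matrix.det_transpose, Matrix.det_apply']
  refine Finset.sum_congr rfl fun σ _ => ?_
  simp [Matrix.transpose_apply]

theorem gram_perm (Z : Fin r → Fin N → K) (σ : Equiv.Perm (Fin r)) :
    gram (fun i => Z (σ i)) = gram Z := by
  rw [gram, gram]
  exact Matrix.det_submatrix_equiv_self σ (Matrix.of fun i j => dot (Z i) (Z j))

theorem isFrame_gram_ne [IsDomain K] [CharZero K] {Z : Fin r → Fin N → K} (h : gram Z ≠ 0) :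
    IsFrame Z := by
  by_contra hcon
  simp only [IsFrame, not_exists, not_not] at hcon
  have := sum_minor_sq Z
  simp only [hcon, ne_eq, OfNat.ofNat_ne_zero, not_false_eq_true, zero_pow, sum_const_zero] at this
  rcases mul_eq_zero.1 this.symm with h1 | h1
  · exact (Nat.cast_ne_zero.2 (Nat.factorial_ne_zero r)) h1
  · exact h h1

theorem gram_smul (s : K) (Z : Fin r → Fin N → K) : gram (s • Z) = s ^ (2 * r) * gram Z := by
  rw [← rowOp_smul_one, gram_rowOp]
  rw [Matrix.det_smul, Matrix.det_one, Fintype.card_fin, mul_one, ← pow_mul, mul_comm r 2]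

end ring

section field

variable {K : Type*} [Field K] {r N : ℕ}

theorem IsFrame.rowOp {Z : Fin r → Fin N → K} (hZ : IsFrame Z) {g : Matrix (Fin r) (Fin r) K}
    (hg : g.det ≠ 0) : IsFrame (rowOp g Z) := by
  obtain ⟨f, h⟩ := hZ
  exact ⟨f, by rw [minor_rowOp]; exact mul_ne_zero hg h⟩

theorem rowOp_eq_imp {Z : Fin r → Fin N → K} (hZ : IsFrame Z)
    {g h : Matrix (Fin r) (Fin r) K} (e : Gr.rowOp g Z = Gr.rowOp h Z) : g = h := by
  obtain ⟨f, hf⟩ := hZ
  set W : Matrix (Fin r) (Fin r) K := Matrix.of fun i j => Z i (f j) with hW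
  have hu : IsUnit W.det := isUnit_iff_ne_zero.2 hf
  have e1 : g * W = h * W := by
    ext i j
    have := congrFun (congrFun e i) (f j)
    simpa [Gr.rowOp, Matrix.mul_apply, hW] using this
  calc g = g * W * W⁻¹ := by rw [Matrix.mul_assoc, Matrix.mul_nonsing_inv _ hu, Matrix.mul_one]
    _ = h * W * W⁻¹ := by rw [e1]
    _ = h := by rw [Matrix.mul_assoc, Matrix.mul_nonsing_inv _ hu, Matrix.mul_one]

theorem rowOp_ne_zero {g : Matrix (Fin r) (Fin r) K} (hg : g.det ≠ 0) {Z : Fin r → Fin N → K}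
    (hZ : Z ≠ 0) : Gr.rowOp g Z ≠ 0 := by
  intro h
  apply hZ
  have hu : IsUnit g.det := isUnit_iff_ne_zero.2 hg
  have : Gr.rowOp (g⁻¹ * g) Z = 0 := by
    rw [rowOp_mul, h, rowOp_zero]
  rwa [Matrix.nonsing_inv_mul g hu, rowOp_one] at this

end field

section real

variable {r N : ℕ}

theorem gram_nonneg (Z : Fin r → Fin N → ℝ) : 0 ≤ gram Z := by
  have h := sum_minor_sq Z
  have h1 : 0 ≤ ∑ f, minor Z f ^ 2 := Finset.sum_nonneg fun f _ => sq_nonneg _
  rw [h] at h1
  have h2 : (0:ℝ) < Nat.factorial r := by exact_mod_cast Nat.factorial_pos r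
  exact nonneg_of_mul_nonneg_right h1 h2

theorem gram_pos_iff (Z : Fin r → Fin N → ℝ) : 0 < gram Z ↔ IsFrame Z := by
  constructor
  · intro hg
    exact isFrame_gram_ne hg.ne'
  · rintro ⟨f, hf⟩
    have h := sum_minor_sq Z
    have h1 : 0 < ∑ f, minor Z f ^ 2 :=
      Finset.sum_pos' (fun f _ => sq_nonneg _) ⟨f, mem_univ _, by positivity⟩
    rw [h] at h1
    have h2 : (0:ℝ) < Nat.factorial r := by exact_mod_cast Nat.factorial_pos r
    exact pos_of_mul_pos_right h1 h2.le

theorem dot_self_nonneg (x : Fin N → ℝ) : 0 ≤ dot x x :=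
  Finset.sum_nonneg fun _ _ => mul_self_nonneg _

theorem continuous_gram : Continuous (fun Z : Fin r → Fin N → ℝ => gram Z) := by
  unfold gram dot
  refine Continuous.matrix_det ?_
  refine continuous_matrix ?_
  intro i j
  simp only [Matrix.of_apply]
  fun_prop

theorem isOpen_frames : IsOpen {Z : Fin r → Fin N → ℝ | IsFrame Z} := by
  have : {Z : Fin r → Fin N → ℝ | IsFrame Z} = (fun Z => gram Z) ⁻¹' (Set.Ioi 0) := by
    ext Z
    rw [Set.mem_preimage, Set.mem_Ioi, gram_pos_iff]
    rfl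
  rw [this]
  exact isOpen_Ioi.preimage continuous_gram

theorem sq_dot_le (x y : Fin N → ℝ) : dot x y ^ 2 ≤ dot x x * dot y y := by
  simp only [dot]
  have := Finset.sum_mul_sq_le_sq_mul_sq univ x y
  simpa [sq] using this

theorem abs_dot_le (x y : Fin N → ℝ) : |dot x y| ≤ √(dot x x) * √(dot y y) := by
  rw [← Real.sqrt_mul (dot_self_nonneg x)]
  exact Real.abs_le_sqrt (sq_dot_le x y)

/-- a weak form of Hadamard's inequality -/
theorem gram_le_prod (Z : Fin r → Fin N → ℝ) :
    gram Z ≤ Nat.factorial r * ∏ i, dot (Z i) (Z i) := by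
  rw [gram, Matrix.det_apply']
  have h : ∀ σ : Equiv.Perm (Fin r), ((Equiv.Perm.sign σ : ℤ) : ℝ) *
      ∏ i, (Matrix.of fun i j => dot (Z i) (Z j)) (σ i) i ≤ ∏ i, dot (Z i) (Z i) := by
    intro σ
    refine (le_abs_self _).trans ?_
    rw [abs_mul, Finset.abs_prod]
    have h1 : |((Equiv.Perm.sign σ : ℤ) : ℝ)| = 1 := by
      rcases Int.units_eq_one_or (Equiv.Perm.sign σ) with h | h <;> rw [h] <;> simp
    rw [h1, one_mul]
    calc ∏ i, |(Matrix.of fun i j => dot (Z i) (Z j)) (σ i) i|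
        ≤ ∏ i, (√(dot (Z (σ i)) (Z (σ i))) * √(dot (Z i) (Z i))) :=
          Finset.prod_le_prod (fun i _ => abs_nonneg _) fun i _ => abs_dot_le _ _
      _ = (∏ i, √(dot (Z (σ i)) (Z (σ i)))) * ∏ i, √(dot (Z i) (Z i)) := Finset.prod_mul_distrib
      _ = (∏ i, √(dot (Z i) (Z i))) * ∏ i, √(dot (Z i) (Z i)) := by
          rw [Equiv.prod_comp σ (fun i => √(dot (Z i) (Z i)))]
      _ = ∏ i, dot (Z i) (Z i) := by
          rw [← Finset.prod_mul_distrib]
          exact Finset.prod_congr rfl fun i _ => Real.mul_self_sqrt (dot_self_nonneg _)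
  refine (Finset.sum_le_sum fun σ _ => h σ).trans ?_
  rw [Finset.sum_const, Finset.card_univ, Fintype.card_perm, Fintype.card_fin, nsmul_eq_mul]

theorem dot_self_le (x : Fin N → ℝ) : dot x x ≤ N * ‖x‖ ^ 2 := by
  have : ∀ j ∈ (Finset.univ : Finset (Fin N)), x j * x j ≤ ‖x‖ ^ 2 := by
    intro j _
    have h1 : |x j| ≤ ‖x‖ := norm_le_pi_norm x j
    rw [← abs_mul_abs_self (x j), sq]
    exact mul_self_le_mul_self (abs_nonneg _) h1
  have h := Finset.sum_le_sum this
  simpa [dot] using h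

theorem norm_sq_le_dot (x : Fin N → ℝ) : ‖x‖ ^ 2 ≤ dot x x := by
  rw [← Real.sqrt_le_sqrt_iff (dot_self_nonneg x), Real.sqrt_sq (norm_nonneg _),
    pi_norm_le_iff_of_nonneg (Real.sqrt_nonneg _)]
  intro j
  apply Real.le_sqrt_of_sq_le
  rw [Real.norm_eq_abs, sq_abs, sq]
  exact Finset.single_le_sum (f := fun j => x j * x j) (fun _ _ => mul_self_nonneg _) (mem_univ j)

end real

end Pool.Agent.Lib.MP_1acd66_nt.Gr
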