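import Pool.Agent.Lib.MP_1acd66_nt.Gr.FrameSum

/-! Conditions on the set of good coefficient vectors. -/

set_option linter.unusedSectionVars false

namespace Pool.Agent.Lib.MP_1acd66_nt.Gr

variable {r N : ℕ} {ι : Type} [Fintype ι]

/-- integral vectors as rational ones -/
def toQ1 (A : ι → ℤ) : ι → ℚ := fun i => (A i : ℚ)

/-- the product of the ratios `l i / l j` over `j < i` -/
noncomputable def shape (l : Fin r → ℝ) : ℝ := ∏ i, ∏ j, if j < i then l i / l j else 1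

/-- The properties of the set of good coefficient vectors used in the counting argument. -/
structure IsGood (D : GAct r ι) (Good : (ι → ℚ) → Prop) : Prop where
  smul : ∀ s : ℚ, s ≠ 0 → ∀ A, Good A → Good (s • A)
  act : ∀ g : Matrix (Fin r) (Fin r) ℚ, g.det ≠ 0 → ∀ A, Good A → Good (D.act g A)
  rare : ∀ ε > 0, ∃ X0 : ℝ, 1 ≤ X0 ∧ ∀ X, X0 ≤ X → ∀ S : Finset (ι → ℤ),
    (∀ A ∈ S, ¬ Good (toQ1 A) ∧ ∀ i, |((A i : ℤ) : ℝ)| ≤ X) →
    (S.card : ℝ) ≤ ε * X ^ (Fintype.card ι)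
  cusp : ∃ η C : ℝ, 0 < η ∧ η ≤ 1 ∧ 0 < C ∧ ∀ l : Fin r → ℝ, Monotone l → (∀ k, 0 < l k) →
    ∀ T : ℝ, 0 < T → ∀ S : Finset (ι → ℤ),
    (∀ A ∈ S, Good (toQ1 A) ∧ ∀ i, (∏ k, l k ^ D.χ i k) * |((A i : ℤ) : ℝ)| ≤ T) →
    (S.card : ℝ) ≤ C * T ^ (Fintype.card ι) * ((∏ k, l k) ^ D.E)⁻¹ * shape l ^ (1 - η) ∧
    (S.Nonempty → (∏ k, l k) ^ D.e ≤ T ^ r)

theorem IsGood.act_iff {D : GAct r ι} {Good : (ι → ℚ) → Prop} (hG : IsGood D Good)
    {g : Matrix (Fin r) (Fin r) ℚ} (hg : g.det ≠ 0) (A : ι → ℚ) : Good (D.act g A) ↔ Good A := by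
  constructor
  · intro h
    have h1 := hG.act g⁻¹ (by
      rw [Matrix.det_nonsing_inv]
      exact isUnit_iff_ne_zero.1 (isUnit_iff_ne_zero.2 hg).ringInverse) _ h
    rwa [D.act_inv_act (isUnit_iff_ne_zero.2 hg)] at h1
  · exact hG.act g hg A

theorem IsGood.smul_iff {D : GAct r ι} {Good : (ι → ℚ) → Prop} (hG : IsGood D Good)
    {s : ℚ} (hs : s ≠ 0) (A : ι → ℚ) : Good (s • A) ↔ Good A := by
  constructor
  · intro h
    have h1 := hG.smul s⁻¹ (inv_ne_zero hs) _ h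
    rwa [smul_smul, inv_mul_cancel₀ hs, one_smul] at h1
  · exact hG.smul s hs A

theorem one_le_shape {l : Fin r → ℝ} (hl : Monotone l) (hpos : ∀ k, 0 < l k) : 1 ≤ shape l := by
  refine Finset.one_le_prod fun i _ => Finset.one_le_prod fun j _ => ?_
  split_ifs with h
  · rw [one_le_div (hpos j)]
    exact hl h.le
  · exact le_rfl

end Pool.Agent.Lib.MP_1acd66_nt.Gr
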