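import Pool.Agent.Lib.MP_1acd66_nt.Gr.RedSum2

/-! Linear algebra modulo a prime, and sublattices of prime index. -/

set_option linter.unusedSectionVars false

namespace Pool.Agent.Lib.MP_1acd66_nt.Gr

open Finset

variable {r N : ℕ}

/-- linearly independent rows have a nonzero maximal minor -/
theorem exists_minor_ne {F : Type*} [Field F] (A : Fin r → Fin N → F)
    (h : LinearIndependent F A) : IsFrame A := by
  have h1 : (Matrix.of A).rank = r := by
    have := LinearIndependent.rank_matrix (M := Matrix.of A) h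
    simpa using this
  rw [Matrix.rank_eq_finrank_span_cols] at h1
  obtain ⟨v, hv, _, hli⟩ := Submodule.exists_fun_fin_finrank_span_eq F (Set.range (Matrix.of A).col)
  choose c hc using hv
  refine ⟨fun i => c (Fin.cast h1.symm i), ?_⟩
  have hli2 : LinearIndependent F (fun i : Fin r => v (Fin.cast h1.symm i)) :=
    hli.comp _ (Fin.cast_injective _)
  have h2 : LinearIndependent F (Matrix.of fun i j => A i (c (Fin.cast h1.symm j))).col := by
    have : (Matrix.of fun i j => A i (c (Fin.cast h1.symm j))).col =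
        fun i : Fin r => v (Fin.cast h1.symm i) := by
      funext j
      rw [← hc (Fin.cast h1.symm j)]
      rfl
    rw [this]
    exact hli2
  rw [Matrix.linearIndependent_cols_iff_isUnit, Matrix.isUnit_iff_isUnit_det] at h2
  exact h2.ne_zero

/-- saturated frames -/
def SatZ (Z : FrZ r N) : Prop := ∀ p : ℕ, p.Prime → ∃ f, ¬ (p:ℤ) ∣ minor Z f

/-- frames that are not saturated at `p` -/
def NonSatAt (p : ℕ) (Z : FrZ r N) : Prop := ∀ f, (p:ℤ) ∣ minor Z f

/-- inverse modulo a prime -/
theorem exists_inv_mod {p : ℕ} (hp : p.Prime) {a : ℤ} (ha : ¬ (p:ℤ) ∣ a) :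
    ∃ l : ℤ, (p:ℤ) ∣ l * a - 1 := by
  have hp' : Prime (p:ℤ) := Nat.prime_iff_prime_int.1 hp
  have hcop : IsCoprime a (p:ℤ) := ((Prime.coprime_iff_not_dvd hp').2 ha).symm
  obtain ⟨x, y, hxy⟩ := hcop
  refine ⟨x, -y, ?_⟩
  linear_combination hxy

/-- normalised vectors modulo `p`: last nonzero coordinate `i`, equal to `1` -/
noncomputable def vset (r p : ℕ) : Finset (Fin r × (Fin r → ℤ)) :=
  (univ : Finset (Fin r)).biUnion (fun i => (Fintype.piFinset (fun k : Fin r =>
    if k < i then Finset.Ico (0:ℤ) p else if k = i then {1} else {0})).image (fun v => (i, v)))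

theorem mem_vset {p : ℕ} {i : Fin r} {v : Fin r → ℤ} : (i, v) ∈ vset r p ↔
    (∀ k, k < i → 0 ≤ v k ∧ v k < p) ∧ v i = 1 ∧ ∀ k, i < k → v k = 0 := by
  simp only [vset, Finset.mem_biUnion, Finset.mem_univ, true_and, Finset.mem_image, Prod.mk.injEq,
    Fintype.mem_piFinset]
  constructor
  · rintro ⟨i', v', hv, rfl, rfl⟩
    refine ⟨fun k hk => ?_, ?_, fun k hk => ?_⟩
    · have := hv k
      rw [if_pos hk, Finset.mem_Ico] at this
      exact this
    · have := hv i'
      simpa using this
    · have := hv k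
      rw [if_neg (not_lt.2 hk.le), if_neg hk.ne', Finset.mem_singleton] at this
      exact this
  · rintro ⟨h1, h2, h3⟩
    refine ⟨i, v, fun k => ?_, rfl, rfl⟩
    split_ifs with h4 h5
    · rw [Finset.mem_Ico]; exact h1 k h4
    · rw [Finset.mem_singleton, h5]; exact h2
    · rw [Finset.mem_singleton]
      exact h3 k (lt_of_le_of_ne (not_lt.1 h4) (Ne.symm h5))

theorem card_vset (r p : ℕ) : (vset r p).card ≤ ∑ i ∈ Finset.range r, p ^ i := by
  refine Finset.card_biUnion_le.trans ?_
  rw [← Fin.sum_univ_eq_sum_range (fun i => p ^ i) r]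
  refine Finset.sum_le_sum fun i _ => Finset.card_image_le.trans ?_
  rw [Fintype.card_piFinset]
  have h : ∀ k : Fin r, (if k < i then Finset.Ico (0:ℤ) p else if k = i then {1} else {0}).card =
      if k < i then p else 1 := by
    intro k
    split_ifs <;> simp
  rw [Finset.prod_congr rfl fun k _ => h k, Finset.prod_ite, Finset.prod_const_one, mul_one,
    Finset.prod_const]
  refine le_of_eq ?_
  congr 1
  have : (Finset.univ.filter fun k : Fin r => k < i) = Finset.Iio i := by
    ext k; simp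
  rw [this, Fin.card_Iio]

/-- normalisation of a nonzero vector modulo `p` -/
theorem exists_normal {p : ℕ} (hp : p.Prime) (c : Fin r → ℤ) (hc : ∃ i, ¬ (p:ℤ) ∣ c i) :
    ∃ i v, (i, v) ∈ vset r p ∧ ∃ l : ℤ, ∀ k, (p:ℤ) ∣ l * c k - v k := by
  classical
  have hppos : (0:ℤ) < p := by exact_mod_cast hp.pos
  set S := (univ : Finset (Fin r)).filter (fun i => ¬ (p:ℤ) ∣ c i) with hS
  have hne : S.Nonempty := by
    obtain ⟨i, hi⟩ := hc
    exact ⟨i, by rw [hS, Finset.mem_filter]; exact ⟨mem_univ _, hi⟩⟩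
  set i := S.max' hne with hi
  have hi1 : ¬ (p:ℤ) ∣ c i := (Finset.mem_filter.1 (S.max'_mem hne)).2
  have hi2 : ∀ k, i < k → (p:ℤ) ∣ c k := by
    intro k hk
    by_contra hcon
    have : k ∈ S := Finset.mem_filter.2 ⟨mem_univ _, hcon⟩
    exact absurd (S.le_max' k this) (not_le.2 hk)
  obtain ⟨l, hl⟩ := exists_inv_mod hp hi1
  refine ⟨i, fun k => if k < i then (l * c k) % p else if k = i then 1 else 0, ?_, l, ?_⟩
  · rw [mem_vset]
    refine ⟨fun k hk => ?_, by simp, fun k hk => ?_⟩
    · simp only [if_pos hk]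
      exact ⟨Int.emod_nonneg _ hppos.ne', Int.emod_lt_of_pos _ hppos⟩
    · simp only [if_neg (not_lt.2 hk.le), if_neg hk.ne']
  · intro k
    simp only
    split_ifs with h1 h2
    · exact Int.dvd_self_sub_emod
    · rw [h2]; exact hl
    · rw [sub_zero]
      exact (hi2 k (lt_of_le_of_ne (not_lt.1 h1) (Ne.symm h2))).mul_left l

theorem exists_relation {p : ℕ} (hp : p.Prime) {Z : FrZ r N} (hZ : NonSatAt p Z) :
    ∃ c : Fin r → ℤ, (∃ i, ¬ (p:ℤ) ∣ c i) ∧ ∀ j, (p:ℤ) ∣ ∑ k, c k * Z k j := by
  have : Fact p.Prime := ⟨hp⟩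
  have hdep : ¬ LinearIndependent (ZMod p) (fun i j => ((Z i j : ℤ) : ZMod p)) := by
    intro hli
    obtain ⟨f, hf⟩ := exists_minor_ne _ hli
    apply hf
    have h1 := minor_map (Int.castRingHom (ZMod p)) Z f
    simp only [eq_intCast] at h1
    rw [h1, ZMod.intCast_zmod_eq_zero_iff_dvd]
    exact hZ f
  rw [Fintype.not_linearIndependent_iff] at hdep
  obtain ⟨g, hg, i, hi⟩ := hdep
  refine ⟨fun k => ((g k).val : ℤ), ⟨i, ?_⟩, ?_⟩
  · intro hdvd
    apply hi
    have := (ZMod.intCast_zmod_eq_zero_iff_dvd ((g i).val : ℤ) p).2 hdvd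
    simpa using this
  · intro j
    rw [← ZMod.intCast_zmod_eq_zero_iff_dvd]
    have h2 := congrFun hg j
    simp only [Finset.sum_apply, Pi.smul_apply, smul_eq_mul, Pi.zero_apply] at h2
    rw [← h2]
    push_cast
    exact Finset.sum_congr rfl fun k _ => by simp

/-- normalised relation -/
theorem nonsat_cases {p : ℕ} (hp : p.Prime) {Z : FrZ r N} (hZ : NonSatAt p Z) :
    ∃ x ∈ vset r p, ∀ j, (p:ℤ) ∣ ∑ k, x.2 k * Z k j := by
  obtain ⟨c, hc, hrel⟩ := exists_relation hp hZ
  obtain ⟨i, v, hv, l, hl⟩ := exists_normal hp c hc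
  refine ⟨(i, v), hv, ?_⟩
  intro j
  have e : ∑ k, v k * Z k j = l * (∑ k, c k * Z k j) - ∑ k, (l * c k - v k) * Z k j := by
    rw [Finset.mul_sum, ← Finset.sum_sub_distrib]
    exact Finset.sum_congr rfl fun k _ => by ring
  rw [e]
  exact dvd_sub ((hrel j).mul_left l) (Finset.dvd_sum fun k _ => (hl k).mul_right _)

theorem det_one_updateRow' {K : Type*} [CommRing K] (j : Fin r) (c : Fin r → K) :
    ((1 : Matrix (Fin r) (Fin r) K).updateRow j c).det = c j := by
  have h := Matrix.det_updateRow_sum (1 : Matrix (Fin r) (Fin r) K) j c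
  have e : (∑ k, c k • (1 : Matrix (Fin r) (Fin r) K) k) = c := by
    funext l
    simp [Finset.sum_apply, Matrix.one_apply]
  rw [e, Matrix.det_one] at h
  rw [h]
  simp

theorem det_one_updateCol' {K : Type*} [CommRing K] (j : Fin r) (c : Fin r → K) :
    ((1 : Matrix (Fin r) (Fin r) K).updateCol j c).det = c j := by
  rw [← Matrix.det_transpose, ← Matrix.updateRow_transpose, Matrix.transpose_one,
    det_one_updateRow']

/-- a frame that is not saturated at `p` spans a sublattice of index `p` -/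
theorem exists_super {p : ℕ} (hp : p.Prime) {Z : FrZ r N} (hZ : NonSatAt p Z) :
    ∃ (h : Matrix (Fin r) (Fin r) ℤ) (W : FrZ r N), |h.det| = p ∧ Z = rowOp h W := by
  classical
  obtain ⟨⟨i, v⟩, hx, hrel⟩ := nonsat_cases hp hZ
  obtain ⟨_, hv1, _⟩ := mem_vset.1 hx
  simp only at hrel
  choose w hw using hrel
  refine ⟨(1 : Matrix (Fin r) (Fin r) ℤ).updateRow i (fun k => if k = i then (p:ℤ) else -v k),
    Function.update Z i w, ?_, ?_⟩
  · rw [det_one_updateRow', if_pos rfl]
    exact abs_of_nonneg (by exact_mod_cast hp.pos.le)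
  · rw [rowOp_updateRow, rowOp_one]
    funext a j
    by_cases ha : a = i
    · subst ha
      rw [Function.update_self]
      have h1 := hw j
      rw [← Finset.add_sum_erase univ _ (mem_univ a)] at h1 ⊢
      rw [hv1, one_mul] at h1
      have h2 : ∑ k ∈ univ.erase a, (if k = a then (p:ℤ) else -v k) *
          Function.update Z a w k j = -∑ k ∈ univ.erase a, v k * Z k j := by
        rw [← Finset.sum_neg_distrib]
        refine Finset.sum_congr rfl fun k hk => ?_
        have hk' := Finset.ne_of_mem_erase hk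
        rw [if_neg hk', Function.update_of_ne hk']
        ring
      rw [h2, if_pos rfl, Function.update_self]
      linarith
    · rw [Function.update_of_ne ha, Function.update_of_ne ha]

/-- representatives of the integral matrices of determinant `± p` -/
def hnf (p : ℕ) (x : Fin r × (Fin r → ℤ)) : Matrix (Fin r) (Fin r) ℤ :=
  (1 : Matrix (Fin r) (Fin r) ℤ).updateCol x.1 (fun k => if k = x.1 then (p:ℤ) else -x.2 k)

theorem det_hnf (p : ℕ) (x : Fin r × (Fin r → ℤ)) : (hnf p x).det = p := by
  rw [hnf, det_one_updateCol', if_pos rfl]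

theorem exists_hnf {p : ℕ} (hp : p.Prime) (h : Matrix (Fin r) (Fin r) ℤ)
    (hdet : |h.det| = p) : ∃ x ∈ vset r p, ∃ g : Matrix (Fin r) (Fin r) ℤ,
      IsUnit g.det ∧ h = g * hnf p x := by
  classical
  have hF : Fact p.Prime := ⟨hp⟩
  have hppos : (0:ℤ) < p := by exact_mod_cast hp.pos
  -- a vector killed by `h` modulo `p`
  obtain ⟨c, hc, hrel⟩ : ∃ c : Fin r → ℤ, (∃ i, ¬ (p:ℤ) ∣ c i) ∧
      ∀ k, (p:ℤ) ∣ ∑ j, h k j * c j := by
    have h1 : (h.map (Int.castRingHom (ZMod p))).det = 0 := by
      have h2 := (Int.castRingHom (ZMod p)).map_det h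
      have h3 : (h.map (Int.castRingHom (ZMod p))).det = Int.castRingHom (ZMod p) h.det := h2.symm
      rw [h3, eq_intCast, ZMod.intCast_zmod_eq_zero_iff_dvd, ← hdet]
      exact (abs_dvd _ _).2 dvd_rfl
    obtain ⟨v, hv0, hv⟩ := Matrix.exists_mulVec_eq_zero_iff.2 h1
    obtain ⟨i, hi⟩ : ∃ i, v i ≠ 0 := by
      by_contra hcon
      push Not at hcon
      exact hv0 (funext hcon)
    refine ⟨fun k => ((v k).val : ℤ), ⟨i, ?_⟩, ?_⟩
    · intro hdvd
      apply hi
      have := (ZMod.intCast_zmod_eq_zero_iff_dvd ((v i).val : ℤ) p).2 hdvd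
      simpa using this
    · intro k
      rw [← ZMod.intCast_zmod_eq_zero_iff_dvd]
      have h2 := congrFun hv k
      simp only [Matrix.mulVec, dotProduct, Matrix.map_apply, eq_intCast, Pi.zero_apply] at h2
      rw [← h2]
      push_cast
      exact Finset.sum_congr rfl fun j _ => by simp
  obtain ⟨i, v, hv, l, hl⟩ := exists_normal hp c hc
  have hv1 : v i = 1 := (mem_vset.1 hv).2.1
  have hrel2 : ∀ k, (p:ℤ) ∣ ∑ j, h k j * v j := by
    intro k
    have e : ∑ j, h k j * v j = l * (∑ j, h k j * c j) - ∑ j, h k j * (l * c j - v j) := by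
      rw [Finset.mul_sum, ← Finset.sum_sub_distrib]
      exact Finset.sum_congr rfl fun k _ => by ring
    rw [e]
    exact dvd_sub ((hrel k).mul_left l) (Finset.dvd_sum fun k _ => (hl k).mul_left _)
  choose w hw using hrel2
  have hprod : h = h.updateCol i w * hnf p (i, v) := by
    ext k m
    rw [Matrix.mul_apply]
    by_cases hm : m = i
    · subst hm
      rw [← Finset.add_sum_erase univ _ (mem_univ m)]
      have h1 := hw k
      rw [← Finset.add_sum_erase univ _ (mem_univ m), hv1, mul_one] at h1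
      have h2 : ∑ j ∈ univ.erase m, h.updateCol m w k j * hnf p (m, v) j m =
          -∑ j ∈ univ.erase m, h k j * v j := by
        rw [← Finset.sum_neg_distrib]
        refine Finset.sum_congr rfl fun j hj => ?_
        have hj' := Finset.ne_of_mem_erase hj
        simp only [hnf, Matrix.updateCol_self, Matrix.updateCol_ne hj', if_neg hj']
        ring
      rw [h2]
      simp only [hnf, Matrix.updateCol_self, if_true]
      linarith
    · rw [Finset.sum_eq_single m]
      · simp [hnf, Matrix.updateCol_ne hm]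
      · intro j _ hj
        simp [hnf, Matrix.updateCol_ne hm, Matrix.one_apply_ne hj]
      · intro hcon
        exact absurd (mem_univ _) hcon
  refine ⟨(i, v), hv, h.updateCol i w, ?_, hprod⟩
  have h1 : h.det = (h.updateCol i w).det * p := by
    conv_lhs => rw [hprod]
    rw [Matrix.det_mul, det_hnf]
  rw [h1, abs_mul, abs_of_pos hppos] at hdet
  have h3 : |(h.updateCol i w).det| = 1 := by
    have : |(h.updateCol i w).det| * p = 1 * p := by rw [hdet, one_mul]
    exact mul_right_cancel₀ hppos.ne' this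
  rw [Int.isUnit_iff_abs_eq]
  exact h3

end Pool.Agent.Lib.MP_1acd66_nt.Gr
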