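import Pool.Agent.Lib.MP_1acd66_nt.Gr.Good

/-! Sums over canonical reduced frames. -/

set_option linter.unusedSectionVars false

namespace Pool.Agent.Lib.MP_1acd66_nt.Gr

open Finset

variable {r N : ℕ}

/-- covolume -/
noncomputable def detR (Z : FrZ r N) : ℝ := √((gram Z : ℤ) : ℝ)

/-- length of a row -/
noncomputable def len (Z : FrZ r N) (i : Fin r) : ℝ := √((dot (Z i) (Z i) : ℤ) : ℝ)

theorem sqrt_gram_castZ (Z : FrZ r N) : √(gram (castZ Z)) = detR Z := by
  rw [gram_castZ, detR]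

theorem one_le_detR {Z : FrZ r N} (hZ : IsFrame Z) : 1 ≤ detR Z := by
  have h := (gram_pos_iff_int Z).2 hZ
  apply Real.le_sqrt_of_sq_le
  rw [one_pow]
  exact_mod_cast h

theorem detR_nonneg (Z : FrZ r N) : 0 ≤ detR Z := Real.sqrt_nonneg _

theorem one_le_dot {Z : FrZ r N} (hZ : IsFrame Z) (i : Fin r) : 1 ≤ dot (Z i) (Z i) := by
  have h1 := dot_self_nonneg_int (Z i)
  have h2 : dot (Z i) (Z i) ≠ 0 := fun h => row_ne_zero hZ i (dot_self_eq_zero_int h)
  omega

theorem one_le_len {Z : FrZ r N} (hZ : IsFrame Z) (i : Fin r) : 1 ≤ len Z i := by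
  apply Real.le_sqrt_of_sq_le
  rw [one_pow]
  exact_mod_cast one_le_dot hZ i

theorem abs_le_len (Z : FrZ r N) (i : Fin r) (j : Fin N) : |((Z i j : ℤ) : ℝ)| ≤ len Z i := by
  apply Real.abs_le_sqrt
  have h : Z i j * Z i j ≤ dot (Z i) (Z i) :=
    Finset.single_le_sum (f := fun j => Z i j * Z i j) (fun _ _ => mul_self_nonneg _) (mem_univ j)
  rw [sq]
  exact_mod_cast h

theorem IsRed.len_mono {Z : FrZ r N} (h : IsRed Z) : Monotone (len Z) := by
  intro i j hij
  apply Real.sqrt_le_sqrt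
  exact_mod_cast h.mono hij

theorem prod_len_sq (Z : FrZ r N) : (∏ i, len Z i) ^ 2 = ∏ i, ((dot (Z i) (Z i) : ℤ) : ℝ) := by
  rw [← Finset.prod_pow]
  refine Finset.prod_congr rfl fun i _ => ?_
  rw [len, Real.sq_sqrt]
  exact_mod_cast dot_self_nonneg_int _

theorem detR_sq (Z : FrZ r N) : detR Z ^ 2 = ((gram Z : ℤ) : ℝ) := by
  rw [detR, Real.sq_sqrt]
  exact_mod_cast gram_nonneg_int Z

theorem IsRed.prod_len_le {Z : FrZ r N} (h : IsRed Z) : ∏ i, len Z i ≤ Cr r * detR Z := by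
  have h1 := h.prod
  rw [← prod_len_sq, ← detR_sq] at h1
  have h2 : Cr r * detR Z ^ 2 ≤ (Cr r * detR Z) ^ 2 := by
    rw [mul_pow]
    apply mul_le_mul_of_nonneg_right _ (sq_nonneg _)
    have := one_le_Cr r
    nlinarith
  exact (abs_le_of_sq_le_sq' (h1.trans h2)
    (mul_nonneg (Cr_pos r).le (detR_nonneg Z))).2

theorem detR_le_prod_len (Z : FrZ r N) : detR Z ≤ Nat.factorial r * ∏ i, len Z i := by
  have h1 := gram_le_prod (castZ Z)
  rw [gram_castZ] at h1
  have h2 : ∏ i, dot (castZ Z i) (castZ Z i) = (∏ i, len Z i) ^ 2 := by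
    rw [prod_len_sq]
    exact Finset.prod_congr rfl fun i _ => dot_castZ Z i i
  rw [h2, ← detR_sq] at h1
  have hf : (1:ℝ) ≤ Nat.factorial r := by exact_mod_cast Nat.factorial_pos r
  have hp : 0 ≤ ∏ i, len Z i := Finset.prod_nonneg fun i _ => Real.sqrt_nonneg _
  have h3 : (Nat.factorial r : ℝ) * (∏ i, len Z i) ^ 2 ≤ (Nat.factorial r * ∏ i, len Z i) ^ 2 := by
    rw [mul_pow]
    apply mul_le_mul_of_nonneg_right _ (sq_nonneg _)
    nlinarith
  exact (abs_le_of_sq_le_sq' (h1.trans h3) (by positivity)).2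

theorem rowOp_inj_int {Z : FrZ r N} (hZ : IsFrame Z) {g h : Matrix (Fin r) (Fin r) ℤ}
    (e : rowOp g Z = rowOp h Z) : g = h := by
  have e1 : rowOp (g.map (Int.castRingHom ℚ)) (fun i j => (Int.castRingHom ℚ) (Z i j)) =
      rowOp (h.map (Int.castRingHom ℚ)) (fun i j => (Int.castRingHom ℚ) (Z i j)) := by
    rw [rowOp_map, rowOp_map, e]
  have hF : IsFrame (fun i j => (Int.castRingHom ℚ) (Z i j)) := by
    obtain ⟨f, hf⟩ := hZ
    refine ⟨f, ?_⟩
    rw [minor_map]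
    simpa using hf
  have e2 := rowOp_eq_imp hF e1
  ext i j
  have := congrFun (congrFun e2 i) j
  simpa using this

/-- the ratio of the dyadic sum -/
noncomputable def bt : ℝ := √2

theorem bt_sq : bt ^ 2 = 2 := Real.sq_sqrt (by norm_num)

theorem one_lt_bt : 1 < bt := by
  unfold bt
  rw [Real.lt_sqrt (by norm_num)]
  norm_num

theorem bt_pos : 0 < bt := one_pos.trans one_lt_bt

/-- the product of the ratios of the dyadic lengths -/
noncomputable def Pn (n : Fin r → ℕ) : ℝ := ∏ i, ∏ j, if j < i then bt ^ (n i - n j) else 1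

theorem one_le_Pn (n : Fin r → ℕ) : 1 ≤ Pn n := by
  refine Finset.one_le_prod fun i _ => Finset.one_le_prod fun j _ => ?_
  split_ifs with h
  · exact one_le_pow₀ one_lt_bt.le
  · exact le_rfl

/-- dyadic level -/
def lev (Z : FrZ r N) (i : Fin r) : ℕ := Nat.log 2 (dot (Z i) (Z i)).toNat

theorem lev_le {Z : FrZ r N} (hZ : IsFrame Z) (i : Fin r) : bt ^ lev Z i ≤ len Z i := by
  have h1 := one_le_dot hZ i
  have h2 : (2:ℕ) ^ lev Z i ≤ (dot (Z i) (Z i)).toNat := Nat.pow_log_le_self 2 (by omega)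
  have h3 : ((2:ℤ)) ^ lev Z i ≤ dot (Z i) (Z i) := by
    have : (((2:ℕ) ^ lev Z i : ℕ) : ℤ) ≤ (((dot (Z i) (Z i)).toNat : ℕ) : ℤ) := by exact_mod_cast h2
    rw [Int.toNat_of_nonneg (by omega)] at this
    exact_mod_cast this
  apply Real.le_sqrt_of_sq_le
  rw [← pow_mul, mul_comm, pow_mul, bt_sq]
  exact_mod_cast h3

theorem len_lt {Z : FrZ r N} (hZ : IsFrame Z) (i : Fin r) : len Z i ≤ bt ^ (lev Z i + 1) := by
  have h1 := one_le_dot hZ i
  have h2 : (dot (Z i) (Z i)).toNat < (2:ℕ) ^ (lev Z i + 1) := Nat.lt_pow_succ_log_self (by norm_num) _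
  have h3 : dot (Z i) (Z i) ≤ (2:ℤ) ^ (lev Z i + 1) := by
    have : (((dot (Z i) (Z i)).toNat : ℕ) : ℤ) < (((2:ℕ) ^ (lev Z i + 1) : ℕ) : ℤ) := by
      exact_mod_cast h2
    rw [Int.toNat_of_nonneg (by omega)] at this
    push_cast at this
    exact this.le
  have hb : 0 ≤ bt ^ (lev Z i + 1) := (pow_pos bt_pos _).le
  apply Real.sqrt_le_iff.2
  refine ⟨hb, ?_⟩
  rw [← pow_mul, mul_comm, pow_mul, bt_sq]
  exact_mod_cast h3

theorem IsRed.lev_mono {Z : FrZ r N} (h : IsRed Z) : Monotone (lev Z) := by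
  intro i j hij
  apply Nat.log_mono_right
  exact Int.toNat_le_toNat (h.mono hij)

/-- unipotent matrices with bounded entries -/
noncomputable def uset (n : Fin r → ℕ) : Finset (Matrix (Fin r) (Fin r) ℤ) :=
  Fintype.piFinset (fun i => Fintype.piFinset (fun j =>
    if j < i then Finset.Icc 0 ⌊bt ^ (n i - n j)⌋ else if j = i then {1} else {0}))

theorem card_uset (n : Fin r → ℕ) : Pn n ≤ ((uset n).card : ℝ) := by
  have h : (uset n).card = ∏ i : Fin r, ∏ j : Fin r, (if j < i then Finset.Icc 0 ⌊bt ^ (n i - n j)⌋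
      else if j = i then {1} else {0}).card := by
    have h0 := Fintype.card_piFinset (fun i : Fin r => Fintype.piFinset (fun j : Fin r =>
      if j < i then Finset.Icc 0 ⌊bt ^ (n i - n j)⌋ else if j = i then {1} else {0}))
    refine (show (uset n).card = _ from h0).trans ?_
    exact Finset.prod_congr rfl fun i _ => Fintype.card_piFinset _
  rw [h]
  push_cast
  refine Finset.prod_le_prod (fun i _ => Finset.prod_nonneg fun j _ => ?_) fun i _ =>
    Finset.prod_le_prod (fun j _ => ?_) fun j _ => ?_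
  · split_ifs
    · exact (pow_pos bt_pos _).le
    · exact zero_le_one
  · split_ifs
    · exact (pow_pos bt_pos _).le
    · exact zero_le_one
  · split_ifs with h1 h2
    · have hx : 0 ≤ bt ^ (n i - n j) := (pow_pos bt_pos _).le
      have h3 : (0:ℤ) ≤ ⌊bt ^ (n i - n j)⌋ := Int.floor_nonneg.2 hx
      rw [Int.card_Icc]
      have h4 : (((⌊bt ^ (n i - n j)⌋ + 1 - 0).toNat : ℕ) : ℝ) =
          (⌊bt ^ (n i - n j)⌋ : ℝ) + 1 := by
        have : (((⌊bt ^ (n i - n j)⌋ + 1 - 0).toNat : ℕ) : ℤ) = ⌊bt ^ (n i - n j)⌋ + 1 := by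
          rw [Int.toNat_of_nonneg (by omega)]; ring
        exact_mod_cast this
      rw [h4]
      exact (Int.lt_floor_add_one _).le
    · simp
    · simp

theorem mem_uset {n : Fin r → ℕ} {U : Matrix (Fin r) (Fin r) ℤ} (hU : U ∈ uset n) (i j : Fin r) :
    U i j ∈ (if j < i then Finset.Icc 0 ⌊bt ^ (n i - n j)⌋ else if j = i then {1} else {0}) := by
  have h := (Fintype.mem_piFinset.1 hU) i
  exact (Fintype.mem_piFinset.1 h) j

theorem det_uset {n : Fin r → ℕ} {U : Matrix (Fin r) (Fin r) ℤ} (hU : U ∈ uset n) : U.det = 1 := by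
  rw [Matrix.det_of_isLowerTriangular U]
  · refine Finset.prod_eq_one fun i _ => ?_
    have := mem_uset hU i i
    simpa using this
  · intro i j hij
    have h1 := mem_uset hU i j
    have hij' : i < j := hij
    rw [if_neg (not_lt.2 hij'.le), if_neg hij'.ne'] at h1
    simpa using h1

theorem abs_uset {n : Fin r → ℕ} (hn : Monotone n) {U : Matrix (Fin r) (Fin r) ℤ}
    (hU : U ∈ uset n) (i j : Fin r) :
    |((U i j : ℤ) : ℝ)| * bt ^ (n j) ≤ bt ^ (n i) := by
  have h1 := mem_uset hU i j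
  split_ifs at h1 with h2 h3
  · rw [Finset.mem_Icc] at h1
    have h4 : ((U i j : ℤ) : ℝ) ≤ bt ^ (n i - n j) :=
      (Int.cast_le.2 h1.2).trans (Int.floor_le _)
    have h5 : (0:ℝ) ≤ ((U i j : ℤ) : ℝ) := by exact_mod_cast h1.1
    rw [abs_of_nonneg h5]
    calc ((U i j : ℤ) : ℝ) * bt ^ (n j) ≤ bt ^ (n i - n j) * bt ^ (n j) :=
          mul_le_mul_of_nonneg_right h4 (pow_pos bt_pos _).le
      _ = bt ^ (n i) := by rw [← pow_add, Nat.sub_add_cancel (hn h2.le)]
  · rw [Finset.mem_singleton] at h1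
    rw [h1, h3]
    simp
  · rw [Finset.mem_singleton] at h1
    rw [h1]
    simp only [Int.cast_zero, abs_zero, zero_mul]
    exact (pow_pos bt_pos _).le

/-- the number of canonical frames with given dyadic lengths -/
theorem card_can [NeZero r] (n : Fin r → ℕ) (hn : Monotone n) (S : Finset (FrZ r N))
    (hS : ∀ Z ∈ S, IsCan Z ∧ ∀ i, len Z i ≤ bt ^ (n i + 1)) :
    (S.card : ℝ) * Pn n ≤ (3 * (r * bt)) ^ (r * N) * (∏ i, bt ^ (n i)) ^ N := by
  classical
  have hinj : Set.InjOn (fun x : FrZ r N × Matrix (Fin r) (Fin r) ℤ => rowOp x.2 x.1)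
      (S ×ˢ uset n : Finset (FrZ r N × Matrix (Fin r) (Fin r) ℤ)) := by
    rintro ⟨Z, U⟩ hx ⟨Z', U'⟩ hx' e
    rw [Finset.mem_coe, Finset.mem_product] at hx hx'
    simp only at hx hx' e
    have hU : IsUnit U.det := by rw [det_uset hx.2]; exact isUnit_one
    have hU' : IsUnit U'.det := by rw [det_uset hx'.2]; exact isUnit_one
    have hE : Equivt Z Z' := by
      refine equivt_equivalence.trans ⟨U, hU, rfl⟩ ?_
      exact equivt_equivalence.symm ⟨U', hU', e⟩
    have hZ : Z = Z' := (hS Z hx.1).1.eq (hS Z' hx'.1).1 hE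
    subst hZ
    rw [rowOp_inj_int (hS Z hx.1).1.1 e]
  have h1 : ((S ×ˢ uset n).card : ℝ) = (((S ×ˢ uset n).image
      (fun x : FrZ r N × Matrix (Fin r) (Fin r) ℤ => rowOp x.2 x.1)).card : ℝ) := by
    rw [Finset.card_image_of_injOn hinj]
  have hr1 : (1:ℝ) ≤ r := by exact_mod_cast NeZero.one_le
  have hrb : 1 ≤ (r:ℝ) * bt := by nlinarith [one_lt_bt]
  have h2 := card_rows (r := r) (N := N) (B := fun i => (r * bt) * bt ^ (n i)) (fun i => by
      have : 1 ≤ bt ^ (n i) := one_le_pow₀ one_lt_bt.le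
      nlinarith) ((S ×ˢ uset n).image
      (fun x : FrZ r N × Matrix (Fin r) (Fin r) ℤ => rowOp x.2 x.1)) (by
    intro y hy i k
    obtain ⟨⟨Z, U⟩, hx, rfl⟩ := Finset.mem_image.1 hy
    rw [Finset.mem_product] at hx
    obtain ⟨hZ, hU⟩ := hx
    simp only at hZ hU ⊢
    have e : ((rowOp U Z i k : ℤ) : ℝ) = ∑ j, ((U i j : ℤ) : ℝ) * ((Z j k : ℤ) : ℝ) := by
      simp [rowOp]
    rw [e]
    refine (Finset.abs_sum_le_sum_abs _ _).trans ?_
    have h3 : ∀ j, |((U i j : ℤ) : ℝ) * ((Z j k : ℤ) : ℝ)| ≤ bt * bt ^ (n i) := by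
      intro j
      rw [abs_mul]
      have h4 : |((Z j k : ℤ) : ℝ)| ≤ bt * bt ^ (n j) := by
        refine (abs_le_len Z j k).trans (((hS Z hZ).2 j).trans (le_of_eq ?_))
        rw [pow_succ]; ring
      calc |((U i j : ℤ) : ℝ)| * |((Z j k : ℤ) : ℝ)|
          ≤ |((U i j : ℤ) : ℝ)| * (bt * bt ^ (n j)) := mul_le_mul_of_nonneg_left h4 (abs_nonneg _)
        _ = bt * (|((U i j : ℤ) : ℝ)| * bt ^ (n j)) := by ring
        _ ≤ bt * bt ^ (n i) := mul_le_mul_of_nonneg_left (abs_uset hn hU i j) bt_pos.le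
    refine (Finset.sum_le_sum fun j _ => h3 j).trans (le_of_eq ?_)
    rw [Finset.sum_const, Finset.card_univ, Fintype.card_fin, nsmul_eq_mul]
    ring)
  rw [← h1, Finset.card_product] at h2
  push_cast at h2
  calc (S.card : ℝ) * Pn n ≤ (S.card : ℝ) * ((uset n).card : ℝ) :=
        mul_le_mul_of_nonneg_left (card_uset n) (Nat.cast_nonneg _)
    _ ≤ _ := h2
    _ = _ := by
        have e : ∀ i : Fin r, (3 * ((r:ℝ) * bt * bt ^ (n i))) ^ N =
            (3 * ((r:ℝ) * bt)) ^ N * (bt ^ (n i)) ^ N := by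
          intro i
          rw [← mul_pow]; congr 1; ring
        rw [Finset.prod_congr rfl fun i _ => e i, Finset.prod_mul_distrib, Finset.prod_const,
          Finset.card_univ, Fintype.card_fin, ← pow_mul, Finset.prod_pow, mul_comm N r]

end Pool.Agent.Lib.MP_1acd66_nt.Gr
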