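import Pool.Agent.Lib.MP_1acd66_nt.Gr.RedSum

/-! The logarithmic bound for sums over canonical reduced frames. -/

set_option linter.unusedSectionVars false

namespace Pool.Agent.Lib.MP_1acd66_nt.Gr

open Finset

variable {r N : ℕ} [NeZero r]

theorem shape_len_le {Z : FrZ r N} (hZ : IsFrame Z) (hr : IsRed Z) :
    shape (len Z) ≤ bt ^ (r * r) * Pn (lev Z) := by
  have h1 : shape (len Z) ≤ ∏ i : Fin r, ∏ j : Fin r,
      bt * (if j < i then bt ^ (lev Z i - lev Z j) else 1) := by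
    refine Finset.prod_le_prod (fun i _ => Finset.prod_nonneg fun j _ => ?_) fun i _ =>
      Finset.prod_le_prod (fun j _ => ?_) fun j _ => ?_
    · split_ifs
      · exact div_nonneg (Real.sqrt_nonneg _) (Real.sqrt_nonneg _)
      · exact zero_le_one
    · split_ifs
      · exact div_nonneg (Real.sqrt_nonneg _) (Real.sqrt_nonneg _)
      · exact zero_le_one
    · split_ifs with h
      · have h2 := len_lt hZ i
        have h3 := lev_le hZ j
        have h4 : 0 < bt ^ lev Z j := pow_pos bt_pos _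
        rw [div_le_iff₀ (lt_of_lt_of_le h4 h3)]
        have h5 : lev Z j ≤ lev Z i := hr.lev_mono h.le
        calc len Z i ≤ bt ^ (lev Z i + 1) := h2
          _ = bt * (bt ^ (lev Z i - lev Z j) * bt ^ lev Z j) := by
              rw [← pow_add, Nat.sub_add_cancel h5, pow_succ]; ring
          _ = bt * bt ^ (lev Z i - lev Z j) * bt ^ lev Z j := by ring
          _ ≤ bt * bt ^ (lev Z i - lev Z j) * len Z j :=
              mul_le_mul_of_nonneg_left h3 (mul_nonneg bt_pos.le (pow_pos bt_pos _).le)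
      · rw [mul_one]; exact one_lt_bt.le
  refine h1.trans (le_of_eq ?_)
  simp only [Finset.prod_mul_distrib, Finset.prod_const, Finset.card_univ, Fintype.card_fin]
  rw [← pow_mul]
  rfl

theorem prod_le_Pn (n : Fin r → ℕ) : ∏ i, bt ^ (n i - n 0) ≤ Pn n := by
  refine Finset.prod_le_prod (fun i _ => (pow_pos bt_pos _).le) fun i _ => ?_
  have hge : ∀ j : Fin r, 1 ≤ (if j < i then bt ^ (n i - n j) else 1) := by
    intro j
    split_ifs
    · exact one_le_pow₀ one_lt_bt.le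
    · exact le_rfl
  by_cases h : (0 : Fin r) < i
  · have h1 : bt ^ (n i - n 0) = (if (0 : Fin r) < i then bt ^ (n i - n 0) else 1) := by
      rw [if_pos h]
    rw [h1, ← Finset.mul_prod_erase univ _ (mem_univ (0 : Fin r))]
    exact le_mul_of_one_le_right (by rw [if_pos h]; exact (pow_pos bt_pos _).le)
      (Finset.one_le_prod fun j _ => hge j)
  · have h1 : i = 0 := le_antisymm (not_lt.1 h) (Fin.zero_le i)
    rw [h1, Nat.sub_self, pow_zero]
    exact Finset.one_le_prod fun j _ => by rw [← h1]; exact hge j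

theorem level_sum (η : ℝ) (hη : 0 < η) (hη1 : η ≤ 1) : ∃ K : ℝ, 0 < K ∧
    ∀ n : Fin r → ℕ, ∀ S : Finset (FrZ r N), (∀ Z ∈ S, IsCan Z ∧ lev Z = n) →
    ∑ Z ∈ S, (detR Z ^ N)⁻¹ * shape (len Z) ^ (1 - η) ≤
      K * ∏ i, (bt ^ (-η)) ^ (n i - n 0) := by
  have hr1 : (1:ℝ) ≤ r := by exact_mod_cast NeZero.one_le
  have hb := bt_pos
  have hC := Cr_pos r
  refine ⟨(3 * (r * bt)) ^ (r * N) * Cr r ^ N * bt ^ (r * r), by positivity, ?_⟩
  intro n S hS
  have hρ : 0 < bt ^ (-η) := Real.rpow_pos_of_pos bt_pos _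
  rcases S.eq_empty_or_nonempty with rfl | ⟨Z0, hZ0⟩
  · rw [Finset.sum_empty]
    positivity
  have hmono : Monotone n := by
    have := (hS Z0 hZ0).1.red.lev_mono
    rwa [(hS Z0 hZ0).2] at this
  set Q : ℝ := ∏ i, bt ^ (n i) with hQ
  have hQp : 0 < Q := Finset.prod_pos fun i _ => pow_pos bt_pos _
  have hP1 := one_le_Pn n
  have hPp : 0 < Pn n := by linarith
  have hterm : ∀ Z ∈ S, (detR Z ^ N)⁻¹ * shape (len Z) ^ (1 - η) ≤
      (Cr r ^ N * (Q ^ N)⁻¹) * (bt ^ (r * r) * Pn n ^ (1 - η)) := by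
    intro Z hZ
    obtain ⟨hcan, hlev⟩ := hS Z hZ
    have hd1 := one_le_detR hcan.1
    have hQd : Q ≤ Cr r * detR Z := by
      refine le_trans ?_ hcan.red.prod_len_le
      rw [hQ, ← hlev]
      exact Finset.prod_le_prod (fun i _ => (pow_pos bt_pos _).le) fun i _ => lev_le hcan.1 i
    have h1 : (detR Z ^ N)⁻¹ ≤ Cr r ^ N * (Q ^ N)⁻¹ := by
      rw [← div_eq_mul_inv, inv_eq_one_div, div_le_div_iff₀ (by positivity) (by positivity),
        one_mul, ← mul_pow]
      exact pow_le_pow_left₀ hQp.le hQd N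
    have hsh := shape_len_le hcan.1 hcan.red
    rw [hlev] at hsh
    have hs1 : 1 ≤ shape (len Z) := one_le_shape hcan.red.len_mono
      (fun k => lt_of_lt_of_le one_pos (one_le_len hcan.1 k))
    have h2 : shape (len Z) ^ (1 - η) ≤ bt ^ (r * r) * Pn n ^ (1 - η) := by
      calc shape (len Z) ^ (1 - η) ≤ (bt ^ (r * r) * Pn n) ^ (1 - η) :=
            Real.rpow_le_rpow (by linarith) hsh (by linarith)
        _ = (bt ^ (r * r)) ^ (1 - η) * Pn n ^ (1 - η) := by
            rw [Real.mul_rpow (by positivity) hPp.le]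
        _ ≤ bt ^ (r * r) * Pn n ^ (1 - η) := by
            apply mul_le_mul_of_nonneg_right _ (Real.rpow_nonneg hPp.le _)
            calc (bt ^ (r * r)) ^ (1 - η) ≤ (bt ^ (r * r)) ^ (1:ℝ) :=
                  Real.rpow_le_rpow_of_exponent_le (one_le_pow₀ one_lt_bt.le) (by linarith)
              _ = bt ^ (r * r) := Real.rpow_one _
    exact mul_le_mul h1 h2 (Real.rpow_nonneg (by linarith) _) (by positivity)
  have hcard := card_can n hmono S (fun Z hZ => ⟨(hS Z hZ).1, fun i => by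
    rw [← (hS Z hZ).2]; exact len_lt (hS Z hZ).1.1 i⟩)
  rw [← hQ] at hcard
  refine (Finset.sum_le_sum hterm).trans ?_
  rw [Finset.sum_const, nsmul_eq_mul]
  have hPη : Pn n ^ (-η) ≤ ∏ i, (bt ^ (-η)) ^ (n i - n 0) := by
    have h1 : ∏ i, (bt ^ (-η)) ^ (n i - n 0) = (∏ i, bt ^ (n i - n 0)) ^ (-η) := by
      rw [← Real.finsetProd_rpow univ (fun i => bt ^ (n i - n 0))
        (fun i _ => (pow_pos bt_pos _).le) (-η)]
      refine Finset.prod_congr rfl fun i _ => ?_
      rw [← Real.rpow_natCast, ← Real.rpow_natCast, ← Real.rpow_mul bt_pos.le,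
        ← Real.rpow_mul bt_pos.le, mul_comm]
    rw [h1]
    exact Real.rpow_le_rpow_of_nonpos (Finset.prod_pos fun i _ => pow_pos bt_pos _)
      (prod_le_Pn n) (by linarith)
  have hPP : Pn n ^ (1 - η) = Pn n * Pn n ^ (-η) := by
    rw [sub_eq_add_neg, Real.rpow_add hPp, Real.rpow_one]
  have hPη0 : 0 ≤ Pn n ^ (-η) := Real.rpow_nonneg hPp.le _
  calc (S.card : ℝ) * ((Cr r ^ N * (Q ^ N)⁻¹) * (bt ^ (r * r) * Pn n ^ (1 - η)))
      = ((S.card : ℝ) * Pn n) * ((Cr r ^ N * (Q ^ N)⁻¹) * (bt ^ (r * r) * Pn n ^ (-η))) := by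
        rw [hPP]; ring
    _ ≤ ((3 * (r * bt)) ^ (r * N) * Q ^ N) *
          ((Cr r ^ N * (Q ^ N)⁻¹) * (bt ^ (r * r) * Pn n ^ (-η))) :=
        mul_le_mul_of_nonneg_right hcard (by positivity)
    _ = (3 * (r * bt)) ^ (r * N) * Cr r ^ N * bt ^ (r * r) * Pn n ^ (-η) := by
        field_simp
    _ ≤ _ := mul_le_mul_of_nonneg_left hPη (by positivity)

theorem geom_le {ρ : ℝ} (h0 : 0 < ρ) (h1 : ρ < 1) (a L : ℕ) :
    ∑ m ∈ Finset.Icc a L, ρ ^ (m - a) ≤ (1 - ρ)⁻¹ := by
  have e : ∑ m ∈ Finset.Icc a L, ρ ^ (m - a) = ∑ m ∈ Finset.range (L + 1 - a), ρ ^ m := by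
    rw [Finset.range_eq_Ico, ← Finset.sum_image (s := Finset.Icc a L) (g := fun m => m - a)
      (f := fun m => ρ ^ m)]
    · refine Finset.sum_congr ?_ fun _ _ => rfl
      ext x
      simp only [Finset.mem_image, Finset.mem_Icc, Finset.mem_Ico]
      constructor
      · rintro ⟨m, ⟨h1, h2⟩, rfl⟩
        omega
      · rintro ⟨_, h2⟩
        exact ⟨x + a, by omega, by omega⟩
    · intro x hx y hy hxy
      simp only [Finset.coe_Icc, Set.mem_Icc] at hx hy
      simp only at hxy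
      omega
  rw [e, geom_sum_eq h1.ne]
  have h3 : 0 ≤ ρ ^ (L + 1 - a) := by positivity
  have h4 : (ρ ^ (L + 1 - a) - 1) / (ρ - 1) = (1 - ρ ^ (L + 1 - a)) / (1 - ρ) := by
    rw [← neg_sub, ← neg_sub (1:ℝ) ρ, neg_div_neg_eq]
  rw [h4, inv_eq_one_div]
  apply div_le_div_of_nonneg_right _ (by linarith)
  linarith

/-- The logarithmic bound for sums over canonical frames. -/
theorem reduced_sum (η : ℝ) (hη : 0 < η) (hη1 : η ≤ 1) : ∃ C : ℝ, 0 < C ∧ ∀ T : ℝ, 1 ≤ T →
    ∀ S : Finset (FrZ r N), (∀ Z ∈ S, IsCan Z ∧ detR Z ≤ T) →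
    ∑ Z ∈ S, (detR Z ^ N)⁻¹ * shape (len Z) ^ (1 - η) ≤ C * (1 + Real.log T) := by
  classical
  obtain ⟨K, hK, hlev⟩ := level_sum (r := r) (N := N) η hη hη1
  set ρ : ℝ := bt ^ (-η) with hρ
  have hρ0 : 0 < ρ := Real.rpow_pos_of_pos bt_pos _
  have hρ1 : ρ < 1 := Real.rpow_lt_one_of_one_lt_of_neg one_lt_bt (by linarith)
  have hlb : 0 < Real.log bt := Real.log_pos one_lt_bt
  have hlC : 0 ≤ Real.log (Cr r) := Real.log_nonneg (one_le_Cr r)
  set G : ℝ := (1 - ρ)⁻¹ ^ r with hG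
  have hGp : 0 < G := pow_pos (inv_pos.2 (by linarith)) r
  refine ⟨((Real.log (Cr r) + 1) / Real.log bt + 1) * (K * G), by positivity, ?_⟩
  intro T hT S hS
  have hlT : 0 ≤ Real.log T := Real.log_nonneg hT
  set L : ℕ := ⌊Real.logb bt (Cr r * T)⌋₊ with hL
  have hCT : 1 ≤ Cr r * T := by nlinarith [one_le_Cr r]
  have hlogb0 : 0 ≤ Real.logb bt (Cr r * T) := Real.logb_nonneg one_lt_bt hCT
  have hLle : (L:ℝ) ≤ (Real.log (Cr r) + Real.log T) / Real.log bt := by
    refine (Nat.floor_le hlogb0).trans (le_of_eq ?_)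
    rw [Real.logb, Real.log_mul (Cr_pos r).ne' (by linarith)]
  have hnL : ∀ Z ∈ S, ∀ i, lev Z i ≤ L := by
    intro Z hZ i
    obtain ⟨hcan, hdet⟩ := hS Z hZ
    have h1 : len Z i ≤ ∏ k, len Z k := by
      rw [← Finset.mul_prod_erase univ _ (mem_univ i)]
      refine le_mul_of_one_le_right (Real.sqrt_nonneg _) ?_
      exact Finset.one_le_prod fun k _ => one_le_len hcan.1 k
    have h2 : bt ^ (lev Z i) ≤ Cr r * T := by
      refine ((lev_le hcan.1 i).trans h1).trans (hcan.red.prod_len_le.trans ?_)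
      exact mul_le_mul_of_nonneg_left hdet (Cr_pos r).le
    apply Nat.le_floor
    rw [Real.le_logb_iff_rpow_le one_lt_bt (by linarith), Real.rpow_natCast]
    exact h2
  have h1 : ∑ Z ∈ S, (detR Z ^ N)⁻¹ * shape (len Z) ^ (1 - η) ≤
      ∑ n ∈ S.image lev, K * ∏ i, ρ ^ (n i - n 0) := by
    rw [← Finset.sum_fiberwise_of_maps_to (s := S) (t := S.image lev) (g := lev)
      (fun Z hZ => Finset.mem_image_of_mem _ hZ)]
    refine Finset.sum_le_sum fun n _ => ?_
    refine hlev n _ ?_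
    intro Z hZ
    obtain ⟨a1, a2⟩ := Finset.mem_filter.1 hZ
    exact ⟨(hS Z a1).1, a2⟩
  have himg : ∀ n ∈ S.image lev, ∀ i, n 0 ≤ n i ∧ n i ≤ L := by
    intro n hn i
    obtain ⟨Z, hZ, rfl⟩ := Finset.mem_image.1 hn
    exact ⟨(hS Z hZ).1.red.lev_mono (Fin.zero_le i), hnL Z hZ i⟩
  have h2 : ∑ n ∈ S.image lev, K * ∏ i, ρ ^ (n i - n 0) ≤ ∑ a ∈ Finset.range (L + 1), K * G := by
    rw [← Finset.sum_fiberwise_of_maps_to (s := S.image lev) (t := Finset.range (L + 1))
      (g := fun n => n 0) (fun n hn => Finset.mem_range.2 (by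
        have := (himg n hn 0).2; omega))]
    refine Finset.sum_le_sum fun a _ => ?_
    have h3 : ∀ n ∈ (S.image lev).filter (fun n => n 0 = a), K * ∏ i, ρ ^ (n i - n 0) =
        K * ∏ i, ρ ^ (n i - a) := by
      intro n hn
      rw [(Finset.mem_filter.1 hn).2]
    rw [Finset.sum_congr rfl h3, ← Finset.mul_sum]
    apply mul_le_mul_of_nonneg_left _ hK.le
    have h4 : (S.image lev).filter (fun n => n 0 = a) ⊆
        Fintype.piFinset (fun _ : Fin r => Finset.Icc a L) := by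
      intro n hn
      obtain ⟨a1, a2⟩ := Finset.mem_filter.1 hn
      rw [Fintype.mem_piFinset]
      intro i
      rw [Finset.mem_Icc, ← a2]
      exact himg n a1 i
    refine (Finset.sum_le_sum_of_subset_of_nonneg h4 (fun n _ _ =>
      Finset.prod_nonneg fun i _ => by positivity)).trans ?_
    rw [← Finset.prod_univ_sum (fun _ : Fin r => Finset.Icc a L) (fun _ m => ρ ^ (m - a))]
    calc ∏ _i : Fin r, ∑ m ∈ Finset.Icc a L, ρ ^ (m - a) ≤ ∏ _i : Fin r, (1 - ρ)⁻¹ :=
          Finset.prod_le_prod (fun _ _ => Finset.sum_nonneg fun _ _ => by positivity)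
            fun _ _ => geom_le hρ0 hρ1 a L
      _ = G := by rw [Finset.prod_const, Finset.card_univ, Fintype.card_fin]
  refine (h1.trans h2).trans ?_
  rw [Finset.sum_const, Finset.card_range, nsmul_eq_mul]
  push_cast
  rw [mul_right_comm]
  apply mul_le_mul_of_nonneg_right _ (by positivity)
  calc (L:ℝ) + 1 ≤ (Real.log (Cr r) + Real.log T) / Real.log bt + 1 := by linarith
    _ ≤ ((Real.log (Cr r) + 1) / Real.log bt + 1) * (1 + Real.log T) := by
        rw [div_add_one hlb.ne', div_add_one hlb.ne', div_mul_eq_mul_div,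
          div_le_div_iff_of_pos_right hlb]
        nlinarith [mul_nonneg hlC hlT, mul_nonneg hlb.le hlT]

end Pool.Agent.Lib.MP_1acd66_nt.Gr
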