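import Pool.Agent.Lib.MP_1acd66_nt.Gr.Frames

/-! Reduced bases of lattices. -/

namespace Pool.Agent.Lib.MP_1acd66_nt.Gr

open Finset

section cons

variable {K : Type*} [CommRing K] {n N : ℕ}

/-- block matrix with first row `(1, 0)` and other rows `(a i, h i)` -/
def consMat (a : Fin n → K) (h : Matrix (Fin n) (Fin n) K) :
    Matrix (Fin (n + 1)) (Fin (n + 1)) K :=
  Matrix.of (Fin.cons (Fin.cons 1 0) (fun i => Fin.cons (a i) (h i)))

theorem det_consMat (a : Fin n → K) (h : Matrix (Fin n) (Fin n) K) :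
    (consMat a h).det = h.det := by
  rw [Matrix.det_succ_row_zero, Fin.sum_univ_succ, Finset.sum_eq_zero]
  · simp only [Fin.val_zero, pow_zero, add_zero, one_mul]
    have e1 : consMat a h 0 0 = 1 := rfl
    rw [e1, one_mul]
    congr 1
  · intro j _
    have e1 : consMat a h 0 j.succ = 0 := rfl
    rw [e1]
    ring

theorem rowOp_consMat_zero (a : Fin n → K) (h : Matrix (Fin n) (Fin n) K)
    (W : Fin (n + 1) → Fin N → K) : rowOp (consMat a h) W 0 = W 0 := by
  funext j
  simp only [rowOp, Fin.sum_univ_succ]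
  have e1 : consMat a h 0 0 = 1 := rfl
  have e2 : ∀ k : Fin n, consMat a h 0 k.succ = 0 := fun _ => rfl
  simp [e1, e2]

theorem rowOp_consMat_succ (a : Fin n → K) (h : Matrix (Fin n) (Fin n) K)
    (W : Fin (n + 1) → Fin N → K) (i : Fin n) :
    rowOp (consMat a h) W i.succ = fun j => a i * W 0 j + rowOp h (fun k => W k.succ) i j := by
  funext j
  simp only [rowOp, Fin.sum_univ_succ]
  rfl

theorem gram_cons (u : Fin N → K) (Y : Fin n → Fin N → K) (h : ∀ i, dot u (Y i) = 0) :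
    gram (Fin.cons u Y : Fin (n + 1) → Fin N → K) = dot u u * gram Y := by
  rw [gram, Matrix.det_succ_row_zero, Fin.sum_univ_succ, Finset.sum_eq_zero]
  · simp only [Fin.val_zero, pow_zero, add_zero, one_mul]
    congr 1
  · intro j _
    have e : (Matrix.of fun i k => dot ((Fin.cons u Y : Fin (n + 1) → Fin N → K) i)
        ((Fin.cons u Y : Fin (n + 1) → Fin N → K) k)) 0 j.succ = dot u (Y j) := rfl
    rw [e, h j]
    ring

end cons

section int

/-- integral frames -/
abbrev FrZ (r N : ℕ) := Fin r → Fin N → ℤ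

variable {r N : ℕ}

theorem dot_self_nonneg_int (x : Fin N → ℤ) : 0 ≤ dot x x :=
  Finset.sum_nonneg fun _ _ => mul_self_nonneg _

theorem dot_self_eq_zero_int {x : Fin N → ℤ} (h : dot x x = 0) : x = 0 := by
  funext j
  have h1 := (Finset.sum_eq_zero_iff_of_nonneg (fun _ _ => mul_self_nonneg _)).1 h j
    (mem_univ j)
  exact mul_self_eq_zero.1 h1

theorem gram_nonneg_int (Z : FrZ r N) : 0 ≤ gram Z := by
  have h := sum_minor_sq Z
  have h1 : 0 ≤ ∑ f, minor Z f ^ 2 := Finset.sum_nonneg fun f _ => sq_nonneg _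
  rw [h] at h1
  have h2 : (0:ℤ) < Nat.factorial r := by exact_mod_cast Nat.factorial_pos r
  exact nonneg_of_mul_nonneg_right h1 h2

theorem gram_pos_iff_int (Z : FrZ r N) : 0 < gram Z ↔ IsFrame Z := by
  constructor
  · intro hg
    exact isFrame_gram_ne hg.ne'
  · rintro ⟨f, hf⟩
    have h := sum_minor_sq Z
    have h1 : 0 < ∑ f, minor Z f ^ 2 :=
      Finset.sum_pos' (fun f _ => sq_nonneg _) ⟨f, mem_univ _, by positivity⟩
    rw [h] at h1
    have h2 : (0:ℤ) < Nat.factorial r := by exact_mod_cast Nat.factorial_pos r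
    exact pos_of_mul_pos_right h1 h2.le

theorem row_ne_zero {Z : FrZ r N} (h : IsFrame Z) (i : Fin r) : Z i ≠ 0 := by
  obtain ⟨f, hf⟩ := h
  intro h0
  apply hf
  refine Matrix.det_eq_zero_of_row_eq_zero i fun j => ?_
  simp [h0]

theorem det_sq_int {g : Matrix (Fin r) (Fin r) ℤ} (hg : IsUnit g.det) : g.det ^ 2 = 1 := by
  rcases Int.isUnit_iff.1 hg with h | h <;> rw [h] <;> norm_num

theorem gram_unit {g : Matrix (Fin r) (Fin r) ℤ} (hg : IsUnit g.det) (Z : FrZ r N) :
    gram (rowOp g Z) = gram Z := by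
  rw [gram_rowOp, det_sq_int hg, one_mul]

/-- permuting the rows -/
theorem exists_perm (g : Matrix (Fin r) (Fin r) ℤ) (hg : IsUnit g.det) (σ : Equiv.Perm (Fin r)) :
    IsUnit (g.submatrix σ id).det ∧ ∀ Z : FrZ r N, rowOp (g.submatrix σ id) Z =
      fun i => rowOp g Z (σ i) := by
  constructor
  · rw [Matrix.det_permute]
    refine IsUnit.mul ?_ hg
    rcases Int.units_eq_one_or (Equiv.Perm.sign σ) with h | h <;> rw [h] <;> simp
  · intro Z
    rfl

theorem exists_min_row (Z : FrZ (r + 1) N) : ∃ g : Matrix (Fin (r + 1)) (Fin (r + 1)) ℤ,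
    IsUnit g.det ∧ ∀ h : Matrix (Fin (r + 1)) (Fin (r + 1)) ℤ, IsUnit h.det → ∀ i,
      dot (rowOp g Z 0) (rowOp g Z 0) ≤ dot (rowOp h Z i) (rowOp h Z i) := by
  classical
  have hex : ∃ m : ℕ, ∃ g : Matrix (Fin (r + 1)) (Fin (r + 1)) ℤ, IsUnit g.det ∧
      (dot (rowOp g Z 0) (rowOp g Z 0)).toNat = m := ⟨_, 1, by simp, rfl⟩
  obtain ⟨g, hg, hm⟩ := Nat.find_spec hex
  refine ⟨g, hg, ?_⟩
  intro h hh i
  obtain ⟨h1, h2⟩ := exists_perm (N := N) h hh (Equiv.swap 0 i)
  have h3 := Nat.find_min' hex ⟨_, h1, rfl⟩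
  rw [← hm, h2 Z] at h3
  simp only [Equiv.swap_apply_left] at h3
  have h4 := dot_self_nonneg_int (rowOp g Z 0)
  have h5 := dot_self_nonneg_int (rowOp h Z i)
  omega

/-- the key inequality of the induction -/
theorem size_step {q : ℝ} (hq : 0 < q) {u w : Fin N → ℝ} (hu : dot u u = q)
    (hw : q ≤ dot w w) (hc : |dot w u| ≤ q / 2) :
    3 * q ^ 2 * dot w w ≤ 4 * dot (fun j => q * w j - dot w u * u j)
      (fun j => q * w j - dot w u * u j) := by
  set c := dot w u with hc'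
  have e : dot (fun j => q * w j - c * u j) (fun j => q * w j - c * u j) =
      q ^ 2 * dot w w - 2 * q * c * dot w u + c ^ 2 * dot u u := by
    simp only [dot, Finset.mul_sum, ← Finset.sum_sub_distrib, ← Finset.sum_add_distrib]
    refine Finset.sum_congr rfl fun j _ => ?_
    ring
  rw [e, hu, ← hc']
  have h1 : c ^ 2 ≤ q ^ 2 / 4 := by
    have := sq_le_sq' (by linarith [(abs_le.1 hc).1]) (abs_le.1 hc).2
    calc c ^ 2 ≤ (q / 2) ^ 2 := this
      _ = q ^ 2 / 4 := by ring
  have h2 : q * c ^ 2 ≤ q ^ 2 / 4 * dot w w := by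
    calc q * c ^ 2 ≤ q * (q ^ 2 / 4) := mul_le_mul_of_nonneg_left h1 hq.le
      _ = q ^ 2 / 4 * q := by ring
      _ ≤ q ^ 2 / 4 * dot w w := mul_le_mul_of_nonneg_left hw (by positivity)
  nlinarith

theorem cast_dot (x y : Fin N → ℤ) : ((dot x y : ℤ) : ℝ) = dot (fun j => (x j : ℝ)) (fun j => (y j : ℝ)) := by
  simp [dot]

theorem exists_red (n : ℕ) : ∃ C : ℝ, 1 ≤ C ∧ ∀ (N : ℕ) (Z : FrZ n N), 0 < gram Z →
    ∃ g : Matrix (Fin n) (Fin n) ℤ, IsUnit g.det ∧
      ∏ i, ((dot (rowOp g Z i) (rowOp g Z i) : ℤ) : ℝ) ≤ C * ((gram Z : ℤ) : ℝ) := by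
  induction n with
  | zero =>
    refine ⟨1, le_rfl, ?_⟩
    intro N Z _
    refine ⟨1, by simp, ?_⟩
    simp [gram]
  | succ n ih =>
    obtain ⟨C, hC, IH⟩ := ih
    refine ⟨(4 / 3) ^ n * C, ?_, ?_⟩
    · have : (1:ℝ) ≤ (4 / 3) ^ n := one_le_pow₀ (by norm_num)
      nlinarith
    intro N Z hZ
    obtain ⟨g0, hg0, hmin⟩ := exists_min_row Z
    set W := rowOp g0 Z with hW
    have hgW : gram W = gram Z := gram_unit hg0 Z
    have hmin' : ∀ h : Matrix (Fin (n + 1)) (Fin (n + 1)) ℤ, IsUnit h.det → ∀ i,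
        dot (W 0) (W 0) ≤ dot (rowOp h W i) (rowOp h W i) := by
      intro h hh i
      rw [hW, ← rowOp_mul]
      exact hmin (h * g0) (by rw [Matrix.det_mul]; exact hh.mul hg0) i
    set u := W 0 with hu
    set q := dot u u with hq
    have hWf : IsFrame W := (gram_pos_iff_int W).1 (by rw [hgW]; exact hZ)
    have hq0 : 0 < q := by
      refine lt_of_le_of_ne (dot_self_nonneg_int u) ?_
      intro h0
      exact row_ne_zero hWf 0 (dot_self_eq_zero_int h0.symm)
    have hqR : (0:ℝ) < (q:ℝ) := by exact_mod_cast hq0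
    set Z' : FrZ n N := fun i j => q * W i.succ j - dot (W i.succ) u * u j with hZ'
    -- the Gram determinant of `Z'`
    have hgZ' : q * gram Z' = q ^ (2 * n) * gram Z := by
      have e1 : rowOp (consMat (fun i => -dot (W i.succ) u) (q • (1 : Matrix (Fin n) (Fin n) ℤ))) W =
          (Fin.cons u Z' : Fin (n + 1) → Fin N → ℤ) := by
        funext i
        refine Fin.cases ?_ (fun i => ?_) i
        · rw [rowOp_consMat_zero]
          rfl
        · rw [rowOp_consMat_succ, rowOp_smul_one]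
          funext j
          simp only [Fin.cons_succ, Pi.smul_apply, smul_eq_mul, hZ']
          ring
      have e2 : ∀ i, dot u (Z' i) = 0 := by
        intro i
        have : dot u (Z' i) = q * dot (W i.succ) u - dot (W i.succ) u * dot u u := by
          simp only [hZ', dot, Finset.mul_sum, ← Finset.sum_sub_distrib]
          refine Finset.sum_congr rfl fun j _ => ?_
          ring
        rw [this, ← hq]
        ring
      have e3 := gram_cons u Z' e2
      rw [← e1, gram_rowOp, det_consMat, Matrix.det_smul, Matrix.det_one, Fintype.card_fin,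
        mul_one, ← pow_mul, hgW] at e3
      rw [← hq] at e3
      rw [← e3, mul_comm n 2]
    have hgZ'0 : 0 < gram Z' := by
      have h1 : 0 < q * gram Z' := by rw [hgZ']; positivity
      exact (mul_pos_iff_of_pos_left hq0).1 h1
    obtain ⟨h, hh, hprod⟩ := IH N Z' hgZ'0
    -- size reduction
    set v : Fin n → Fin N → ℤ := rowOp h (fun k => W k.succ) with hv
    set m : Fin n → ℤ := fun i => round (((dot (v i) u : ℤ) : ℝ) / (q:ℝ)) with hm
    set g1 := consMat (fun i => -m i) h with hg1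
    have hg1u : IsUnit g1.det := by rw [hg1, det_consMat]; exact hh
    set w : Fin n → Fin N → ℤ := fun i => rowOp g1 W i.succ with hw
    have hwv : ∀ i, w i = fun j => -m i * u j + v i j := fun i => rowOp_consMat_succ _ _ _ _
    have hdotw : ∀ i, dot (w i) u = dot (v i) u - m i * q := by
      intro i
      rw [hwv i, hq]
      simp only [dot, Finset.mul_sum, ← Finset.sum_sub_distrib]
      refine Finset.sum_congr rfl fun j _ => ?_
      ring
    have hy : ∀ i, rowOp h Z' i = fun j => q * w i j - dot (w i) u * u j := by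
      intro i
      have e1 : rowOp h Z' i = fun j => q * v i j - dot (v i) u * u j := by
        funext j
        have e2 : dot (v i) u = ∑ k, h i k * dot (W k.succ) u :=
          dot_sum_left univ (fun k => h i k) (fun k => W k.succ) u
        rw [e2]
        simp only [rowOp, hv, hZ', Finset.mul_sum, Finset.sum_mul, ← Finset.sum_sub_distrib]
        refine Finset.sum_congr rfl fun k _ => ?_
        ring
      rw [e1, hdotw i, hwv i]
      funext j
      ring
    have hstep : ∀ i, 3 * (q:ℝ) ^ 2 * ((dot (w i) (w i) : ℤ) : ℝ) ≤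
        4 * ((dot (rowOp h Z' i) (rowOp h Z' i) : ℤ) : ℝ) := by
      intro i
      have h1 := size_step (N := N) hqR (u := fun j => (u j : ℝ)) (w := fun j => (w i j : ℝ))
        (by rw [← cast_dot]) (by
          rw [← cast_dot]
          exact_mod_cast hmin' g1 hg1u i.succ) (by
          rw [← cast_dot, hdotw i]
          push_cast
          have h2 := abs_sub_round (((dot (v i) u : ℤ) : ℝ) / (q:ℝ))
          have h3 : ((dot (v i) u : ℤ) : ℝ) - (m i : ℝ) * q =
              (((dot (v i) u : ℤ) : ℝ) / (q:ℝ) - (m i : ℝ)) * q := by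
            field_simp
          rw [h3, abs_mul, abs_of_pos hqR]
          calc |((dot (v i) u : ℤ) : ℝ) / (q:ℝ) - (m i : ℝ)| * q ≤ 1 / 2 * q :=
                mul_le_mul_of_nonneg_right h2 hqR.le
            _ = q / 2 := by ring)
      rw [← cast_dot] at h1
      refine h1.trans (le_of_eq ?_)
      rw [hy i]
      have e6 := cast_dot (fun j => q * w i j - dot (w i) u * u j)
        (fun j => q * w i j - dot (w i) u * u j)
      have e7 := cast_dot (w i) u
      rw [e6]
      simp only [Int.cast_sub, Int.cast_mul, e7]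
    have hstep' : ∀ i, ((dot (w i) (w i) : ℤ) : ℝ) ≤
        4 / 3 / (q:ℝ) ^ 2 * ((dot (rowOp h Z' i) (rowOp h Z' i) : ℤ) : ℝ) := by
      intro i
      have h1 := hstep i
      rw [div_div, div_mul_eq_mul_div, le_div_iff₀ (by positivity)]
      linarith
    refine ⟨g1 * g0, by rw [Matrix.det_mul]; exact hg1u.mul hg0, ?_⟩
    rw [rowOp_mul, ← hW, Fin.prod_univ_succ]
    have e0 : rowOp g1 W 0 = u := rowOp_consMat_zero _ _ _
    rw [e0, ← hq]
    have h5 : ∏ i : Fin n, ((dot (rowOp g1 W i.succ) (rowOp g1 W i.succ) : ℤ) : ℝ) ≤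
        (4 / 3 / (q:ℝ) ^ 2) ^ n * (C * ((gram Z' : ℤ) : ℝ)) := by
      calc ∏ i : Fin n, ((dot (rowOp g1 W i.succ) (rowOp g1 W i.succ) : ℤ) : ℝ)
          ≤ ∏ i : Fin n, (4 / 3 / (q:ℝ) ^ 2 *
              ((dot (rowOp h Z' i) (rowOp h Z' i) : ℤ) : ℝ)) := by
            refine Finset.prod_le_prod ?_ fun i _ => hstep' i
            intro i _
            exact_mod_cast dot_self_nonneg_int _
        _ = (4 / 3 / (q:ℝ) ^ 2) ^ n * ∏ i : Fin n,
              ((dot (rowOp h Z' i) (rowOp h Z' i) : ℤ) : ℝ) := by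
            rw [Finset.prod_mul_distrib, Finset.prod_const, Finset.card_univ, Fintype.card_fin]
        _ ≤ _ := mul_le_mul_of_nonneg_left hprod (by positivity)
    have h6 : (q:ℝ) * ((gram Z' : ℤ) : ℝ) = (q:ℝ) ^ (2 * n) * ((gram Z : ℤ) : ℝ) := by
      exact_mod_cast hgZ'
    calc (q:ℝ) * ∏ i : Fin n, ((dot (rowOp g1 W i.succ) (rowOp g1 W i.succ) : ℤ) : ℝ)
        ≤ (q:ℝ) * ((4 / 3 / (q:ℝ) ^ 2) ^ n * (C * ((gram Z' : ℤ) : ℝ))) :=
          mul_le_mul_of_nonneg_left h5 hqR.le
      _ = (4 / 3 / (q:ℝ) ^ 2) ^ n * C * ((q:ℝ) * ((gram Z' : ℤ) : ℝ)) := by ring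
      _ = (4 / 3 / (q:ℝ) ^ 2) ^ n * C * ((q:ℝ) ^ (2 * n) * ((gram Z : ℤ) : ℝ)) := by rw [h6]
      _ = (4 / 3) ^ n * C * ((gram Z : ℤ) : ℝ) := by
          rw [div_pow, ← pow_mul]
          field_simp

/-- the constant of reduction theory -/
noncomputable def Cr (r : ℕ) : ℝ := (exists_red r).choose

theorem one_le_Cr (r : ℕ) : 1 ≤ Cr r := (exists_red r).choose_spec.1

theorem Cr_pos (r : ℕ) : 0 < Cr r := lt_of_lt_of_le one_pos (one_le_Cr r)

/-- reduced frames -/
structure IsRed (Z : FrZ r N) : Prop where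
  prod : ∏ i, ((dot (Z i) (Z i) : ℤ) : ℝ) ≤ Cr r * ((gram Z : ℤ) : ℝ)
  mono : Monotone fun i => dot (Z i) (Z i)

theorem exists_reduced {Z : FrZ r N} (hZ : IsFrame Z) :
    ∃ g : Matrix (Fin r) (Fin r) ℤ, IsUnit g.det ∧ IsRed (rowOp g Z) := by
  obtain ⟨g, hg, hp⟩ := (exists_red r).choose_spec.2 N Z ((gram_pos_iff_int Z).2 hZ)
  set f : Fin r → ℤ := fun i => dot (rowOp g Z i) (rowOp g Z i) with hf
  obtain ⟨h1, h2⟩ := exists_perm (N := N) g hg (Tuple.sort f)
  refine ⟨_, h1, ?_, ?_⟩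
  · rw [gram_unit h1, h2 Z]
    have e : ∏ i, ((dot (rowOp g Z (Tuple.sort f i)) (rowOp g Z (Tuple.sort f i)) : ℤ) : ℝ) =
        ∏ i, ((dot (rowOp g Z i) (rowOp g Z i) : ℤ) : ℝ) :=
      Equiv.prod_comp (Tuple.sort f) (fun i => ((dot (rowOp g Z i) (rowOp g Z i) : ℤ) : ℝ))
    rw [e]
    exact hp
  · rw [h2 Z]
    exact Tuple.monotone_sort f

/-- two integral frames of the same lattice -/
def Equivt (Z Z' : FrZ r N) : Prop := ∃ g : Matrix (Fin r) (Fin r) ℤ, IsUnit g.det ∧ Z' = rowOp g Z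

theorem equivt_equivalence : Equivalence (Equivt (r := r) (N := N)) where
  refl Z := ⟨1, by simp, (rowOp_one Z).symm⟩
  symm {Z Z'} h := by
    obtain ⟨g, hg, rfl⟩ := h
    refine ⟨g⁻¹, Matrix.isUnit_nonsing_inv_det g hg, ?_⟩
    rw [← rowOp_mul, Matrix.nonsing_inv_mul g hg, rowOp_one]
  trans {Z Z' Z''} h h' := by
    obtain ⟨g, hg, rfl⟩ := h
    obtain ⟨k, hk, rfl⟩ := h'
    exact ⟨k * g, by rw [Matrix.det_mul]; exact hk.mul hg, (rowOp_mul _ _ _).symm⟩

/-- the setoid of lattices -/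
def frSetoid (r N : ℕ) : Setoid (FrZ r N) := ⟨Equivt, equivt_equivalence⟩

open Classical in
/-- a reduced frame of the lattice -/
noncomputable def redOf (L : Quotient (frSetoid r N)) : FrZ r N :=
  if h : ∃ Z : FrZ r N, Quotient.mk (frSetoid r N) Z = L ∧ IsRed Z then h.choose else L.out

/-- canonical reduced frame -/
noncomputable def can (Z : FrZ r N) : FrZ r N := redOf (Quotient.mk (frSetoid r N) Z)

theorem can_congr {Z Z' : FrZ r N} (h : Equivt Z Z') : can Z = can Z' := by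
  unfold can
  congr 1
  exact Quotient.sound h

theorem can_spec {Z : FrZ r N} (hZ : IsFrame Z) : Equivt Z (can Z) ∧ IsRed (can Z) := by
  obtain ⟨g, hg, hr⟩ := exists_reduced hZ
  have h : ∃ Z' : FrZ r N, Quotient.mk (frSetoid r N) Z' = Quotient.mk (frSetoid r N) Z ∧
      IsRed Z' := by
    refine ⟨rowOp g Z, ?_, hr⟩
    exact Quotient.sound (equivt_equivalence.symm ⟨g, hg, rfl⟩)
  have e : can Z = h.choose := by
    unfold can redOf
    rw [dif_pos h]
  rw [e]
  refine ⟨?_, h.choose_spec.2⟩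
  exact equivt_equivalence.symm (Quotient.exact h.choose_spec.1)

theorem can_can {Z : FrZ r N} (hZ : IsFrame Z) : can (can Z) = can Z :=
  (can_congr (can_spec hZ).1).symm

/-- canonical frames -/
def IsCan (Z : FrZ r N) : Prop := IsFrame Z ∧ can Z = Z

theorem IsCan.red {Z : FrZ r N} (h : IsCan Z) : IsRed Z := by
  have := (can_spec h.1).2
  rwa [h.2] at this

theorem IsCan.eq {Z Z' : FrZ r N} (h : IsCan Z) (h' : IsCan Z') (e : Equivt Z Z') : Z = Z' := by
  rw [← h.2, ← h'.2, can_congr e]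

theorem isFrame_unit {g : Matrix (Fin r) (Fin r) ℤ} (hg : IsUnit g.det) {Z : FrZ r N}
    (hZ : IsFrame Z) : IsFrame (rowOp g Z) := by
  rw [← gram_pos_iff_int, gram_unit hg, gram_pos_iff_int]
  exact hZ

theorem isCan_can {Z : FrZ r N} (hZ : IsFrame Z) : IsCan (can Z) := by
  refine ⟨?_, can_can hZ⟩
  obtain ⟨g, hg, h⟩ := (can_spec hZ).1
  rw [h]
  exact isFrame_unit hg hZ

end int

end Pool.Agent.Lib.MP_1acd66_nt.Gr
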