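import Pool.Agent.Lib.MP_1acd66_nt.Gr.Modp

/-! Non-saturated frames. -/

set_option linter.unusedSectionVars false

namespace Pool.Agent.Lib.MP_1acd66_nt.Gr

open MeasureTheory Metric Set Filter Topology

variable {r N : ℕ} [NeZero r] {ι : Type} [Fintype ι]

/-- primitive arrays -/
def PrimA (A : ι → ℤ) : Prop := ∀ p : ℕ, p.Prime → ∃ i, ¬ (p:ℤ) ∣ A i

/-- arrays divisible by `p` -/
def DivA (p : ℕ) (A : ι → ℤ) : Prop := ∀ i, (p:ℤ) ∣ A i

theorem detR_rowOp (h : Matrix (Fin r) (Fin r) ℤ) (Z : FrZ r N) :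
    detR (rowOp h Z) = |(h.det : ℝ)| * detR Z := by
  rw [detR, gram_rowOp, detR]
  push_cast
  rw [Real.sqrt_mul (sq_nonneg _), Real.sqrt_sq_eq_abs]

/-- the number of sublattices of index `p` -/
def Np (r p : ℕ) : ℕ := ∑ i ∈ Finset.range r, p ^ i

theorem wt_sum_det {t : ℝ} (ht : 0 < t) {p : ℕ} (hp : p.Prime) (Z : Fr r N)
    (J : Finset (Matrix (Fin r) (Fin r) ℤ)) (hJ : ∀ h ∈ J, |h.det| = p) :
    ∑ h ∈ J, wt t (rowOp (castM h) Z) ≤ Np r p := by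
  classical
  have hex : ∀ h ∈ J, ∃ x ∈ vset r p, ∃ g : Matrix (Fin r) (Fin r) ℤ,
      IsUnit g.det ∧ h = g * hnf p x := fun h hh => exists_hnf hp h (hJ h hh)
  choose! I hI G hG1 hG2 using hex
  rw [← Finset.sum_fiberwise_of_maps_to hI]
  calc ∑ i ∈ vset r p, ∑ h ∈ J with I h = i, wt t (rowOp (castM h) Z)
      ≤ ∑ i ∈ vset r p, (1:ℝ) := by
        refine Finset.sum_le_sum ?_
        intro i _
        have hinj : Set.InjOn G (J.filter (fun h => I h = i)) := by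
          intro h hh h' hh' hGG
          obtain ⟨a1, a2⟩ := Finset.mem_filter.1 hh
          obtain ⟨b1, b2⟩ := Finset.mem_filter.1 hh'
          rw [hG2 h a1, hG2 h' b1, hGG, a2, b2]
        have e : ∑ h ∈ J with I h = i, wt t (rowOp (castM h) Z) =
            ∑ g ∈ (J.filter (fun h => I h = i)).image G,
              wt t (rowOp (castM g) (rowOp (castM (hnf p i)) Z)) := by
          rw [Finset.sum_image hinj]
          refine Finset.sum_congr rfl ?_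
          intro h hh
          obtain ⟨a1, a2⟩ := Finset.mem_filter.1 hh
          rw [← rowOp_mul, ← castM_mul]
          congr 3
          rw [← a2]
          exact hG2 h a1
        rw [e]
        refine wt_sum_le_one ht _ _ ?_
        intro g hg
        obtain ⟨h, hh, rfl⟩ := Finset.mem_image.1 hg
        exact hG1 h (Finset.mem_filter.1 hh).1
    _ = ((vset r p).card : ℝ) := by simp
    _ ≤ Np r p := by exact_mod_cast card_vset r p

theorem isFrame_of_rowOp {h : Matrix (Fin r) (Fin r) ℤ} {Z : FrZ r N} (hZ : IsFrame (rowOp h Z)) :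
    IsFrame Z := by
  obtain ⟨f, hf⟩ := hZ
  refine ⟨f, ?_⟩
  rw [minor_rowOp] at hf
  exact right_ne_zero_of_mul hf

/-- The sum of the weights over frames that are not saturated at `p`. -/
theorem nonsat_sum : ∃ C : ℝ, 0 < C ∧ ∀ t : ℝ, 0 < t → ∀ p : ℕ, p.Prime →
    ∀ T : ℝ, 1 ≤ T → ∀ S : Finset (FrZ r N), (∀ Z ∈ S, IsFrame Z ∧ NonSatAt p Z ∧ detR Z ≤ T) →
    ∑ Z ∈ S, wt t (castZ Z) * (detR Z ^ N)⁻¹ ≤ C * (Np r p * ((p:ℝ) ^ N)⁻¹) * (1 + Real.log T) := by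
  classical
  obtain ⟨C, hC, hred⟩ := reduced_sum (r := r) (N := N) 1 one_pos le_rfl
  refine ⟨C, hC, ?_⟩
  intro t ht p hp T hT S hS
  have hppos : (0:ℝ) < p := by exact_mod_cast hp.pos
  have hp1 : (1:ℝ) ≤ p := by exact_mod_cast hp.one_lt.le
  have hex : ∀ Z ∈ S, ∃ (h : Matrix (Fin r) (Fin r) ℤ) (W : FrZ r N), |h.det| = p ∧
      Z = rowOp h W ∧ IsCan W := by
    intro Z hZ
    obtain ⟨hF, hns, _⟩ := hS Z hZ
    obtain ⟨h, W, hdet, rfl⟩ := exists_super hp hns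
    have hFW := isFrame_of_rowOp hF
    obtain ⟨g, hg, hW⟩ := (can_spec hFW).1
    refine ⟨h * g⁻¹, can W, ?_, ?_, isCan_can hFW⟩
    · rw [Matrix.det_mul, abs_mul, hdet]
      have := isUnit_det_inv hg
      rw [Int.isUnit_iff_abs_eq] at this
      rw [this, mul_one]
    · rw [hW, ← rowOp_mul, Matrix.mul_assoc, Matrix.nonsing_inv_mul g hg, Matrix.mul_one]
  choose! H W hdet hZW hWcan using hex
  have hmaps : ∀ Z ∈ S, W Z ∈ S.image W := fun Z hZ => Finset.mem_image_of_mem _ hZ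
  rw [← Finset.sum_fiberwise_of_maps_to hmaps]
  have hdetR : ∀ Z ∈ S, detR Z = p * detR (W Z) := by
    intro Z hZ
    conv_lhs => rw [hZW Z hZ]
    rw [detR_rowOp]
    have : |((H Z).det : ℝ)| = p := by
      have := hdet Z hZ
      exact_mod_cast this
    rw [this]
  have hinner : ∀ V ∈ S.image W, ∑ Z ∈ S with W Z = V, wt t (castZ Z) * (detR Z ^ N)⁻¹ ≤
      (Np r p * ((p:ℝ) ^ N)⁻¹) * (detR V ^ N)⁻¹ := by
    intro V _
    have e1 : ∀ Z ∈ S.filter (fun Z => W Z = V), wt t (castZ Z) * (detR Z ^ N)⁻¹ =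
        (((p:ℝ) ^ N)⁻¹ * (detR V ^ N)⁻¹) * wt t (rowOp (castM (H Z)) (castZ V)) := by
      intro Z hZ
      obtain ⟨a1, a2⟩ := Finset.mem_filter.1 hZ
      have hd : detR Z = p * detR V := by rw [hdetR Z a1, a2]
      have hc : castZ Z = rowOp (castM (H Z)) (castZ V) := by
        rw [← castZ_rowOp, ← a2, ← hZW Z a1]
      rw [hd, hc, mul_pow, mul_inv]
      ring
    rw [Finset.sum_congr rfl e1, ← Finset.mul_sum]
    have hinj : Set.InjOn H (S.filter (fun Z => W Z = V)) := by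
      intro Z hZ Z' hZ' hHH
      obtain ⟨a1, a2⟩ := Finset.mem_filter.1 hZ
      obtain ⟨b1, b2⟩ := Finset.mem_filter.1 hZ'
      rw [hZW Z a1, hZW Z' b1, hHH, a2, b2]
    have e2 : ∑ Z ∈ S with W Z = V, wt t (rowOp (castM (H Z)) (castZ V)) =
        ∑ h ∈ (S.filter (fun Z => W Z = V)).image H, wt t (rowOp (castM h) (castZ V)) := by
      rw [Finset.sum_image hinj]
    have h3 := wt_sum_det ht hp (castZ V) ((S.filter (fun Z => W Z = V)).image H) (by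
      intro h hh
      obtain ⟨Z, hZ, rfl⟩ := Finset.mem_image.1 hh
      exact hdet Z (Finset.mem_filter.1 hZ).1)
    rw [← e2] at h3
    have hd0 : 0 ≤ detR V := Real.sqrt_nonneg _
    calc (((p:ℝ) ^ N)⁻¹ * (detR V ^ N)⁻¹) * ∑ Z ∈ S with W Z = V, wt t (rowOp (castM (H Z)) (castZ V))
        ≤ (((p:ℝ) ^ N)⁻¹ * (detR V ^ N)⁻¹) * (Np r p) :=
          mul_le_mul_of_nonneg_left h3 (by positivity)
      _ = _ := by ring
  refine (Finset.sum_le_sum hinner).trans ?_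
  rw [← Finset.mul_sum]
  have h4 := hred T hT (S.image W) (by
    intro V hV
    obtain ⟨Z, hZ, rfl⟩ := Finset.mem_image.1 hV
    refine ⟨hWcan Z hZ, ?_⟩
    have h5 := (hS Z hZ).2.2
    rw [hdetR Z hZ] at h5
    have h6 : 1 ≤ detR (W Z) := one_le_detR (hWcan Z hZ).1
    nlinarith)
  have e3 : ∀ V : FrZ r N, (detR V ^ N)⁻¹ * shape (len V) ^ ((1:ℝ) - 1) = (detR V ^ N)⁻¹ := by
    intro V
    rw [sub_self, Real.rpow_zero, mul_one]
  rw [Finset.sum_congr rfl fun V _ => e3 V] at h4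
  have h5 : 0 ≤ (Np r p : ℝ) * ((p:ℝ) ^ N)⁻¹ := by positivity
  calc (Np r p : ℝ) * ((p:ℝ) ^ N)⁻¹ * ∑ V ∈ S.image W, (detR V ^ N)⁻¹
      ≤ (Np r p : ℝ) * ((p:ℝ) ^ N)⁻¹ * (C * (1 + Real.log T)) := mul_le_mul_of_nonneg_left h4 h5
    _ = _ := by ring

/-- geometric sums -/
theorem Np_mul (r p : ℕ) (hp : 1 ≤ p) : (Np r p : ℝ) * ((p:ℝ) - 1) ≤ (p:ℝ) ^ r := by
  have h : (Np r p : ℝ) = ∑ i ∈ Finset.range r, (p:ℝ) ^ i := by
    simp [Np]
  rw [h, geom_sum_mul]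
  linarith

theorem Np_le {p N : ℕ} (hp : 2 ≤ p) (hN : r + 1 ≤ N) :
    (Np r p : ℝ) * ((p:ℝ) ^ N)⁻¹ ≤ ((p:ℝ) * (p - 1))⁻¹ := by
  have h1 := Np_mul r p (by omega)
  have hp2 : (2:ℝ) ≤ p := by exact_mod_cast hp
  have hp0 : (0:ℝ) < p := by linarith
  have hp1 : (0:ℝ) < (p:ℝ) - 1 := by linarith
  have h2 : (p:ℝ) ^ r * p ≤ (p:ℝ) ^ N := by
    rw [← pow_succ]
    exact pow_le_pow_right₀ (by linarith) hN
  rw [← div_eq_mul_inv, inv_eq_one_div, div_le_div_iff₀ (by positivity) (by positivity), one_mul]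
  calc (Np r p : ℝ) * ((p:ℝ) * (p - 1)) = (Np r p * (p - 1)) * p := by ring
    _ ≤ (p:ℝ) ^ r * p := mul_le_mul_of_nonneg_right h1 hp0.le
    _ ≤ (p:ℝ) ^ N := h2

end Pool.Agent.Lib.MP_1acd66_nt.Gr
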