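import Pool.Agent.Lib.MP_1acd66_nt.Gr.Norm
import Pool.Agent.Lib.MP_1acd66_nt.Annulus

/-! The partition of unity on the space of frames. -/

set_option linter.unusedSectionVars false

namespace Pool.Agent.Lib.MP_1acd66_nt.Gr

open MeasureTheory Metric Set Filter Topology

variable {r N : ℕ} {ι : Type} [Fintype ι] {D : GAct r ι}

/-- cast an integer matrix -/
def castM (g : Matrix (Fin r) (Fin r) ℤ) : Matrix (Fin r) (Fin r) ℝ := g.map (Int.castRingHom ℝ)

theorem castM_mul (g h : Matrix (Fin r) (Fin r) ℤ) : castM (g * h) = castM g * castM h :=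
  Matrix.map_mul

theorem castM_one : castM (1 : Matrix (Fin r) (Fin r) ℤ) = 1 :=
  Matrix.map_one _ (map_zero _) (map_one _)

theorem castM_det (g : Matrix (Fin r) (Fin r) ℤ) : (castM g).det = (g.det : ℝ) :=
  ((Int.castRingHom ℝ).map_det g).symm

theorem finite_GammaR (R : ℕ) :
    {g : Matrix (Fin r) (Fin r) ℤ | (∀ i j, |g i j| ≤ R) ∧ IsUnit g.det}.Finite := by
  have h : {g : Fin r → Fin r → ℤ | ∀ i, g i ∈ {v : Fin r → ℤ | ∀ j, v j ∈
      Set.Icc (-(R:ℤ)) R}}.Finite :=
    Set.Finite.pi' fun _ => Set.Finite.pi' fun _ => Set.finite_Icc _ _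
  refine h.subset ?_
  rintro g ⟨hg, _⟩ i j
  exact abs_le.1 (hg i j)

/-- integer matrices with bounded entries and determinant `±1` -/
noncomputable def GammaR (R : ℕ) : Finset (Matrix (Fin r) (Fin r) ℤ) := (finite_GammaR R).toFinset

theorem mem_GammaR (R : ℕ) (g : Matrix (Fin r) (Fin r) ℤ) :
    g ∈ GammaR R ↔ (∀ i j, |g i j| ≤ R) ∧ IsUnit g.det := by
  rw [GammaR, Set.Finite.mem_toFinset]
  rfl

/-- cut-off function for balanced frames -/
noncomputable def bal (t : ℝ) (Z : Fr r N) : ℝ := min 1 (max 0 (t * √(gram Z) / ‖Z‖ ^ r - 1))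

theorem bal_nonneg (t : ℝ) (Z : Fr r N) : 0 ≤ bal t Z := le_min zero_le_one (le_max_left _ _)

theorem bal_le_one (t : ℝ) (Z : Fr r N) : bal t Z ≤ 1 := min_le_left _ _

theorem bal_pos [NeZero r] {t : ℝ} {Z : Fr r N} (h : 0 < bal t Z) :
    ‖Z‖ ^ r < t * √(gram Z) ∧ Z ≠ 0 := by
  have h1 : 0 < max 0 (t * √(gram Z) / ‖Z‖ ^ r - 1) := lt_of_lt_of_le h (min_le_right _ _)
  have h2 : 0 < t * √(gram Z) / ‖Z‖ ^ r - 1 := by
    rcases lt_max_iff.1 h1 with h3 | h3
    · exact absurd h3 (lt_irrefl _)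
    · exact h3
  have hZ : Z ≠ 0 := by
    rintro rfl
    rw [norm_zero, zero_pow (NeZero.ne r), div_zero] at h2
    linarith
  have hn : 0 < ‖Z‖ ^ r := by
    have := norm_pos_iff.2 hZ
    positivity
  rw [sub_pos, lt_div_iff₀ hn, one_mul] at h2
  exact ⟨h2, hZ⟩

theorem bal_pos_frame [NeZero r] {t : ℝ} {Z : Fr r N} (h : 0 < bal t Z) : IsFrame Z := by
  rw [← gram_pos_iff]
  obtain ⟨h1, h2⟩ := bal_pos h
  have hn : 0 < ‖Z‖ ^ r := by
    have := norm_pos_iff.2 h2
    positivity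
  have h3 : √(gram Z) ≠ 0 := by
    intro h0
    rw [h0, mul_zero] at h1
    linarith
  exact Real.sqrt_pos.1 (lt_of_le_of_ne (Real.sqrt_nonneg _) (Ne.symm h3))

theorem bal_eq_one {t : ℝ} {Z : Fr r N} (hZ : Z ≠ 0) (h : 2 * ‖Z‖ ^ r ≤ t * √(gram Z)) :
    bal t Z = 1 := by
  have hn : 0 < ‖Z‖ ^ r := by
    have := norm_pos_iff.2 hZ
    positivity
  have : 1 ≤ t * √(gram Z) / ‖Z‖ ^ r - 1 := by
    rw [le_sub_iff_add_le, le_div_iff₀ hn]
    linarith
  rw [bal, min_eq_left]
  exact this.trans (le_max_right _ _)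

theorem sqrt_gram_smul {s : ℝ} (hs : 0 < s) (Z : Fr r N) : √(gram (s • Z)) = s ^ r * √(gram Z) := by
  rw [gram_smul, Real.sqrt_mul (by positivity)]
  congr 1
  rw [mul_comm 2 r, pow_mul, Real.sqrt_sq (by positivity)]

theorem bal_smul (t : ℝ) {s : ℝ} (hs : 0 < s) (Z : Fr r N) : bal t (s • Z) = bal t Z := by
  rw [bal, bal, sqrt_gram_smul hs, norm_smul, Real.norm_eq_abs, abs_of_pos hs]
  congr 2
  rw [mul_pow, ← mul_assoc, mul_comm t, mul_assoc, mul_div_mul_left _ _ (by positivity)]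

theorem norm_row_le (Z : Fr r N) (i : Fin r) : ‖Z i‖ ≤ ‖Z‖ := norm_le_pi_norm Z i

theorem gram_le_mul (Z : Fr r N) : gram Z ≤ Nat.factorial r * (N:ℝ) ^ r * (∏ i, ‖Z i‖) ^ 2 := by
  refine (gram_le_prod Z).trans ?_
  have h : ∏ i, dot (Z i) (Z i) ≤ ∏ i, ((N:ℝ) * ‖Z i‖ ^ 2) :=
    Finset.prod_le_prod (fun i _ => dot_self_nonneg _) fun i _ => dot_self_le _
  rw [Finset.prod_mul_distrib, Finset.prod_const, Finset.card_univ, Fintype.card_fin,
    Finset.prod_pow] at h
  calc (Nat.factorial r : ℝ) * ∏ i, dot (Z i) (Z i)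
      ≤ Nat.factorial r * ((N:ℝ) ^ r * (∏ i, ‖Z i‖) ^ 2) :=
        mul_le_mul_of_nonneg_left h (Nat.cast_nonneg _)
    _ = _ := by ring

/-- the constant in the bound for the entries -/
noncomputable def Kc (r N : ℕ) : ℝ := Nat.factorial r * (N:ℝ) ^ r + 1

theorem one_le_Kc (r N : ℕ) : 1 ≤ Kc r N := by
  have : (0:ℝ) ≤ Nat.factorial r * (N:ℝ) ^ r := by positivity
  unfold Kc
  linarith

theorem det_one_updateRow (j : Fin r) (c : Fin r → ℝ) :
    ((1 : Matrix (Fin r) (Fin r) ℝ).updateRow j c).det = c j := by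
  have h := Matrix.det_updateRow_sum (1 : Matrix (Fin r) (Fin r) ℝ) j c
  have e : (∑ k, c k • (1 : Matrix (Fin r) (Fin r) ℝ) k) = c := by
    funext l
    simp [Finset.sum_apply, Matrix.one_apply]
  rw [e, Matrix.det_one] at h
  rw [h]
  simp

/-- entries of a matrix relating two balanced frames of the same determinant are bounded -/
theorem entry_bound [NeZero r] {t : ℝ} (ht : 0 < t) {Z : Fr r N} {g : Matrix (Fin r) (Fin r) ℝ}
    (hg : g.det ^ 2 = 1) (h1 : 0 < bal t Z) (h2 : 0 < bal t (rowOp g Z)) (i j : Fin r) :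
    |g i j| ≤ Kc r N * t := by
  have hF : IsFrame Z := bal_pos_frame h1
  have hG : 0 < gram Z := (gram_pos_iff Z).2 hF
  have b1 := (bal_pos h1).1
  have b2 := (bal_pos h2).1
  rw [gram_rowOp, hg, one_mul] at b2
  set G := gram Z with hGdef
  have hsG : √G ^ 2 = G := Real.sq_sqrt hG.le
  set h : Matrix (Fin r) (Fin r) ℝ := (1 : Matrix (Fin r) (Fin r) ℝ).updateRow j (g i) with hh
  have hdet : h.det = g i j := det_one_updateRow j (g i)
  have hW : rowOp h Z = Function.update Z j (rowOp g Z i) := by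
    rw [hh, rowOp_updateRow, rowOp_one]
    rfl
  have hrow : ∀ k, ‖rowOp h Z k‖ ^ r ≤ t * √G := by
    intro k
    rw [hW]
    by_cases hk : k = j
    · subst hk
      rw [Function.update_self]
      have h3 : ‖rowOp g Z i‖ ^ r ≤ ‖rowOp g Z‖ ^ r :=
        pow_le_pow_left₀ (norm_nonneg _) (norm_row_le (rowOp g Z) i) r
      linarith
    · rw [Function.update_of_ne hk]
      have h3 : ‖Z k‖ ^ r ≤ ‖Z‖ ^ r := pow_le_pow_left₀ (norm_nonneg _) (norm_row_le Z k) r
      linarith
  have hprod : ∏ k, ‖rowOp h Z k‖ ≤ t * √G := by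
    have h3 : (∏ k, ‖rowOp h Z k‖) ^ r ≤ (t * √G) ^ r := by
      rw [← Finset.prod_pow]
      calc ∏ k, ‖rowOp h Z k‖ ^ r ≤ ∏ _k : Fin r, (t * √G) :=
            Finset.prod_le_prod (fun k _ => by positivity) fun k _ => hrow k
        _ = (t * √G) ^ r := by
            rw [Finset.prod_const, Finset.card_univ, Fintype.card_fin]
    exact (pow_le_pow_iff_left₀ (Finset.prod_nonneg fun k _ => norm_nonneg _) (by positivity)
      (NeZero.ne r)).1 h3
  have e := gram_rowOp h Z
  rw [hdet, ← hGdef] at e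
  have l := gram_le_mul (rowOp h Z)
  rw [e] at l
  set c : ℝ := Nat.factorial r * (N:ℝ) ^ r with hc
  have hc0 : 0 ≤ c := by positivity
  have hKc : Kc r N = c + 1 := rfl
  have hpn : 0 ≤ ∏ k, ‖rowOp h Z k‖ := Finset.prod_nonneg fun k _ => norm_nonneg _
  have l2 : (∏ k, ‖rowOp h Z k‖) ^ 2 ≤ (t * √G) ^ 2 := pow_le_pow_left₀ hpn hprod 2
  have l3 : g i j ^ 2 * G ≤ (c * t ^ 2) * G := by
    calc g i j ^ 2 * G ≤ c * (∏ k, ‖rowOp h Z k‖) ^ 2 := l
      _ ≤ c * (t * √G) ^ 2 := mul_le_mul_of_nonneg_left l2 hc0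
      _ = (c * t ^ 2) * G := by rw [mul_pow, hsG]; ring
  have l4 : g i j ^ 2 ≤ c * t ^ 2 := le_of_mul_le_mul_right l3 hG
  have l5 : g i j ^ 2 ≤ (Kc r N * t) ^ 2 := by
    rw [hKc]
    refine l4.trans ?_
    rw [mul_pow]
    apply mul_le_mul_of_nonneg_right _ (sq_nonneg t)
    nlinarith
  have hK : 0 ≤ Kc r N * t := by
    have := one_le_Kc r N
    positivity
  exact abs_le_of_sq_le_sq l5 hK

variable [NeZero r]

/-- sum of the cut-offs over the orbit -/
noncomputable def balSum (t : ℝ) (Z : Fr r N) : ℝ :=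
  ∑ g ∈ GammaR ⌈Kc r N * t⌉₊, bal t (rowOp (castM g) Z)

theorem balSum_nonneg (t : ℝ) (Z : Fr r N) : 0 ≤ balSum t Z :=
  Finset.sum_nonneg fun _ _ => bal_nonneg _ _

/-- the weight -/
noncomputable def wt (t : ℝ) (Z : Fr r N) : ℝ := bal t Z / max 1 (balSum t Z)

theorem wt_nonneg (t : ℝ) (Z : Fr r N) : 0 ≤ wt t Z :=
  div_nonneg (bal_nonneg _ _) (zero_le_one.trans (le_max_left _ _))

theorem wt_le_bal (t : ℝ) (Z : Fr r N) : wt t Z ≤ bal t Z :=
  div_le_self (bal_nonneg _ _) (le_max_left _ _)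

theorem wt_le_one (t : ℝ) (Z : Fr r N) : wt t Z ≤ 1 := (wt_le_bal t Z).trans (bal_le_one t Z)

theorem wt_pos {t : ℝ} {Z : Fr r N} (h : wt t Z ≠ 0) : 0 < bal t Z := by
  rcases (bal_nonneg t Z).lt_or_eq with h1 | h1
  · exact h1
  · exfalso; apply h; rw [wt, ← h1, zero_div]

theorem det_sq_eq_one {g : Matrix (Fin r) (Fin r) ℤ} (hg : IsUnit g.det) :
    (castM g).det ^ 2 = 1 := by
  rw [castM_det]
  rcases Int.isUnit_iff.1 hg with h | h <;> rw [h] <;> norm_num

theorem isUnit_det_mul {g h : Matrix (Fin r) (Fin r) ℤ} (hg : IsUnit g.det) (hh : IsUnit h.det) :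
    IsUnit (g * h).det := by
  rw [Matrix.det_mul]; exact hg.mul hh

theorem isUnit_det_inv {g : Matrix (Fin r) (Fin r) ℤ} (hg : IsUnit g.det) :
    IsUnit (g⁻¹).det := by
  exact Matrix.isUnit_nonsing_inv_det g hg

/-- comparison of the orbit sums for two balanced members of the same orbit -/
theorem mem_GammaR_of_bal {t : ℝ} (ht : 0 < t) {Z : Fr r N} {g h : Matrix (Fin r) (Fin r) ℤ}
    (hg : IsUnit g.det) (hh : IsUnit h.det) (h1 : 0 < bal t (rowOp (castM g) Z))
    (h2 : 0 < bal t (rowOp (castM h) Z)) : h * g⁻¹ ∈ GammaR ⌈Kc r N * t⌉₊ := by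
  have hu : IsUnit (h * g⁻¹).det := isUnit_det_mul hh (isUnit_det_inv hg)
  rw [mem_GammaR]
  refine ⟨?_, hu⟩
  intro i j
  have e : rowOp (castM (h * g⁻¹)) (rowOp (castM g) Z) = rowOp (castM h) Z := by
    rw [← rowOp_mul, ← castM_mul, Matrix.mul_assoc, Matrix.nonsing_inv_mul g hg, Matrix.mul_one]
  have := entry_bound ht (det_sq_eq_one hu) h1 (by rw [e]; exact h2) i j
  have h3 : ((|(h * g⁻¹) i j| : ℤ) : ℝ) ≤ (⌈Kc r N * t⌉₊ : ℝ) := by
    push_cast
    exact this.trans (Nat.le_ceil _)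
  exact_mod_cast h3

theorem wt_sum_le_one {t : ℝ} (ht : 0 < t) (Z : Fr r N) (S : Finset (Matrix (Fin r) (Fin r) ℤ))
    (hS : ∀ g ∈ S, IsUnit g.det) : ∑ g ∈ S, wt t (rowOp (castM g) Z) ≤ 1 := by
  classical
  set S' := S.filter (fun g => 0 < bal t (rowOp (castM g) Z)) with hS'
  have e1 : ∑ g ∈ S, wt t (rowOp (castM g) Z) = ∑ g ∈ S', wt t (rowOp (castM g) Z) := by
    rw [hS', Finset.sum_filter]
    refine Finset.sum_congr rfl ?_
    intro g _
    split_ifs with h
    · rfl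
    · have : bal t (rowOp (castM g) Z) = 0 := le_antisymm (not_lt.1 h) (bal_nonneg _ _)
      rw [wt, this, zero_div]
  rw [e1]
  set s := ∑ g ∈ S', bal t (rowOp (castM g) Z) with hs
  have hs0 : 0 ≤ s := Finset.sum_nonneg fun _ _ => bal_nonneg _ _
  have hle : ∀ g ∈ S', s ≤ balSum t (rowOp (castM g) Z) := by
    intro g hg
    obtain ⟨hg1, hg2⟩ := Finset.mem_filter.1 hg
    have hgu := hS g hg1
    rw [hs, balSum]
    have e2 : ∑ h ∈ S', bal t (rowOp (castM h) Z) =
        ∑ k ∈ S'.image (fun h => h * g⁻¹), bal t (rowOp (castM k) (rowOp (castM g) Z)) := by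
      rw [Finset.sum_image]
      · refine Finset.sum_congr rfl ?_
        intro h _
        congr 1
        rw [← rowOp_mul, ← castM_mul, Matrix.mul_assoc, Matrix.nonsing_inv_mul g hgu,
          Matrix.mul_one]
      · intro a _ b _ hab
        have := congrArg (fun x => x * g) hab
        simpa [Matrix.mul_assoc, Matrix.nonsing_inv_mul g hgu] using this
    rw [e2]
    refine Finset.sum_le_sum_of_subset_of_nonneg ?_ (fun _ _ _ => bal_nonneg _ _)
    intro k hk
    obtain ⟨h, hh, rfl⟩ := Finset.mem_image.1 hk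
    obtain ⟨hh1, hh2⟩ := Finset.mem_filter.1 hh
    exact mem_GammaR_of_bal ht hgu (hS h hh1) hg2 hh2
  have h3 : ∑ g ∈ S', wt t (rowOp (castM g) Z) ≤
      ∑ g ∈ S', bal t (rowOp (castM g) Z) / max 1 s := by
    refine Finset.sum_le_sum ?_
    intro g hg
    rw [wt]
    apply div_le_div_of_nonneg_left (bal_nonneg _ _)
    · exact lt_of_lt_of_le one_pos (le_max_left _ _)
    · exact max_le_max le_rfl (hle g hg)
  refine h3.trans ?_
  rw [← Finset.sum_div, ← hs]
  rw [div_le_one (lt_of_lt_of_le one_pos (le_max_left _ _))]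
  exact le_max_right _ _

theorem one_le_wt_sum {t : ℝ} (Z : Fr r N) (S : Finset (Matrix (Fin r) (Fin r) ℤ))
    (hS : ∀ g ∈ S, IsUnit g.det)
    (hS2 : ∀ g : Matrix (Fin r) (Fin r) ℤ, IsUnit g.det → 0 < bal t (rowOp (castM g) Z) → g ∈ S)
    (h1 : ∃ g : Matrix (Fin r) (Fin r) ℤ, IsUnit g.det ∧ bal t (rowOp (castM g) Z) = 1) :
    1 ≤ ∑ g ∈ S, wt t (rowOp (castM g) Z) := by
  classical
  obtain ⟨g1, hg1, hb1⟩ := h1
  set s := ∑ g ∈ S, bal t (rowOp (castM g) Z) with hs
  have hs1 : 1 ≤ s := by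
    rw [hs, ← hb1]
    refine Finset.single_le_sum (f := fun g => bal t (rowOp (castM g) Z))
      (fun _ _ => bal_nonneg _ _) (hS2 g1 hg1 ?_)
    rw [hb1]; exact one_pos
  have hle : ∀ g ∈ S, balSum t (rowOp (castM g) Z) ≤ s := by
    intro g hg
    have hgu := hS g hg
    rw [hs, balSum]
    have e2 : ∑ k ∈ GammaR ⌈Kc r N * t⌉₊, bal t (rowOp (castM k) (rowOp (castM g) Z)) =
        ∑ h ∈ (GammaR ⌈Kc r N * t⌉₊).image (fun k => k * g), bal t (rowOp (castM h) Z) := by
      rw [Finset.sum_image]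
      · refine Finset.sum_congr rfl ?_
        intro h _
        congr 1
        rw [castM_mul, rowOp_mul]
      · intro a _ b _ hab
        have := congrArg (fun x => x * g⁻¹) hab
        simpa [Matrix.mul_assoc, Matrix.mul_nonsing_inv g hgu] using this
    rw [e2]
    rw [← Finset.sum_filter_add_sum_filter_not
      ((GammaR ⌈Kc r N * t⌉₊).image (fun k => k * g)) (fun h => 0 < bal t (rowOp (castM h) Z))]
    have z : ∑ h ∈ ((GammaR ⌈Kc r N * t⌉₊).image (fun k => k * g)).filter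
        (fun h => ¬ 0 < bal t (rowOp (castM h) Z)), bal t (rowOp (castM h) Z) = 0 := by
      refine Finset.sum_eq_zero ?_
      intro h hh
      exact le_antisymm (not_lt.1 (Finset.mem_filter.1 hh).2) (bal_nonneg _ _)
    rw [z, add_zero]
    refine Finset.sum_le_sum_of_subset_of_nonneg ?_ (fun _ _ _ => bal_nonneg _ _)
    intro h hh
    obtain ⟨hh1, hh2⟩ := Finset.mem_filter.1 hh
    obtain ⟨k, hk, rfl⟩ := Finset.mem_image.1 hh1
    exact hS2 _ (isUnit_det_mul ((mem_GammaR _ _).1 hk).2 hgu) hh2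
  have h3 : ∑ g ∈ S, bal t (rowOp (castM g) Z) / s ≤ ∑ g ∈ S, wt t (rowOp (castM g) Z) := by
    refine Finset.sum_le_sum ?_
    intro g hg
    rw [wt]
    apply div_le_div_of_nonneg_left (bal_nonneg _ _)
    · exact lt_of_lt_of_le one_pos (le_max_left _ _)
    · exact max_le hs1 (hle g hg)
  refine le_trans ?_ h3
  rw [← Finset.sum_div, ← hs, div_self (by linarith)]

theorem continuousOn_bal (t : ℝ) : ContinuousOn (bal t : Fr r N → ℝ) {0}ᶜ := by
  unfold bal
  refine ContinuousOn.inf continuousOn_const (ContinuousOn.sup continuousOn_const ?_)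
  refine ContinuousOn.sub (ContinuousOn.div ?_ ?_ ?_) continuousOn_const
  · exact (continuous_const.mul (Real.continuous_sqrt.comp continuous_gram)).continuousOn
  · exact (continuous_norm.pow r).continuousOn
  · intro x hx
    have : x ≠ 0 := hx
    have := norm_pos_iff.2 this
    positivity

theorem continuous_rowOp (g : Matrix (Fin r) (Fin r) ℝ) :
    Continuous (fun Z : Fr r N => rowOp g Z) := by
  unfold rowOp
  fun_prop

theorem continuousOn_wt (t : ℝ) : ContinuousOn (wt t : Fr r N → ℝ) {0}ᶜ := by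
  unfold wt
  refine ContinuousOn.div (continuousOn_bal t) ?_ ?_
  · refine ContinuousOn.sup continuousOn_const ?_
    unfold balSum
    refine continuousOn_finsetSum _ ?_
    intro g hg
    refine (continuousOn_bal t).comp (continuous_rowOp _).continuousOn ?_
    intro Z hZ
    refine rowOp_ne_zero ?_ hZ
    have := det_sq_eq_one ((mem_GammaR _ _).1 hg).2
    intro h0
    rw [h0] at this
    norm_num at this
  · intro Z _
    exact (lt_of_lt_of_le one_pos (le_max_left _ _)).ne'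

theorem wt_smul (t : ℝ) {s : ℝ} (hs : 0 < s) (Z : Fr r N) : wt t (s • Z) = wt t Z := by
  rw [wt, wt, bal_smul t hs]
  congr 2
  unfold balSum
  refine Finset.sum_congr rfl ?_
  intro g _
  rw [rowOp_smul, bal_smul t hs]

/-- the density function for sums over frames -/
noncomputable def dens (t : ℝ) (M : Fr r N → (ι → ℝ) → ℝ) (Z : Fr r N) : ℝ := wt t Z * bodyVol M Z

theorem homNeg_dens [Nonempty ι] {M : Fr r N → (ι → ℝ) → ℝ} (hM : IsLocalNorm D ℝ N M)
    (hw : D.E ≤ N) (t : ℝ) :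
    HomNeg (r * N) (dens t M) where
  nonneg Z := mul_nonneg (wt_nonneg _ _) measureReal_nonneg
  hom Z hZ s hs := by
    unfold dens
    rw [wt_smul t hs]
    by_cases hF : IsFrame Z
    · rw [hM.bodyVol_smul hw hF hs]; ring
    · have : wt t Z = 0 := by
        by_contra hcon
        exact hF (bal_pos_frame (wt_pos hcon))
      rw [this]; ring
  cont := by
    intro Z hZ
    have hZ0 : Z ≠ 0 := hZ
    by_cases hF : IsFrame Z
    · have h1 : ContinuousAt (wt t) Z :=
        (continuousOn_wt t).continuousAt (isOpen_compl_singleton.mem_nhds hZ)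
      exact (h1.mul (hM.continuousAt_bodyVol hF)).continuousWithinAt
    · -- the weight vanishes near `Z`
      have hG : gram Z = 0 := by
        refine le_antisymm ?_ (gram_nonneg Z)
        by_contra hcon
        exact hF ((gram_pos_iff Z).1 (not_le.1 hcon))
      have hcont : ContinuousAt (fun Z : Fr r N => t * √(gram Z) / ‖Z‖ ^ r - 1) Z := by
        refine ContinuousAt.sub (ContinuousAt.div ?_ ?_ ?_) continuousAt_const
        · exact (continuous_const.mul (Real.continuous_sqrt.comp continuous_gram)).continuousAt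
        · exact (continuous_norm.pow r).continuousAt
        · have := norm_pos_iff.2 hZ0
          positivity
      have hneg : (fun Z : Fr r N => t * √(gram Z) / ‖Z‖ ^ r - 1) Z < 0 := by
        simp only [hG, Real.sqrt_zero, mul_zero, zero_div, zero_sub]
        norm_num
      have hev : ∀ᶠ Z' in 𝓝 Z, dens t M Z' = 0 := by
        filter_upwards [hcont.eventually_lt continuousAt_const hneg] with Z' hZ'
        have hb : bal t Z' = 0 := by
          rw [bal, max_eq_left hZ'.le, min_eq_right zero_le_one]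
        rw [dens, wt, hb, zero_div, zero_mul]
      have h0 : dens t M Z = 0 := hev.self_of_nhds
      refine ContinuousAt.continuousWithinAt ?_
      rw [ContinuousAt, h0]
      exact tendsto_const_nhds.congr' (hev.mono fun _ h => h.symm)

end Pool.Agent.Lib.MP_1acd66_nt.Gr
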